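import Mathlib

open Finset

namespace Pool.Agent.R446

/-- fractional coordinates of a point of the cube -/
noncomputable def fracs {σ : Type} [Fintype σ] (y : σ → ℝ) : Finset σ :=
  Finset.univ.filter (fun i => |y i| < 1)

theorem exists_few_fracs {σ : Type} [Fintype σ] {d : ℕ} (w : σ → (Fin d → ℝ)) :
    ∃ y : σ → ℝ, (∀ i, |y i| ≤ 1) ∧ (∑ i, y i • w i = 0) ∧ (fracs y).card ≤ d := by
  classical
  -- choose y with the least number of fractional coordinates
  let Pn : ℕ → Prop := fun n => ∃ y : σ → ℝ, (∀ i, |y i| ≤ 1) ∧ (∑ i, y i • w i = 0) ∧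
    (fracs y).card = n
  have hex : ∃ n, Pn n := ⟨_, fun _ => 0, by simp, by simp, rfl⟩
  obtain ⟨y, hy1, hy0, hyn⟩ := Nat.find_spec hex
  refine ⟨y, hy1, hy0, ?_⟩
  by_contra hcon
  push Not at hcon
  -- linear dependency among the fractional vectors
  have hdep : ¬ LinearIndependent ℝ (fun i : (fracs y : Finset σ) => w i) := by
    intro h
    have := h.fintype_card_le_finrank
    rw [Fintype.card_coe, Module.finrank_fintype_fun_eq_card, Fintype.card_fin] at this
    omega
  rw [Fintype.not_linearIndependent_iff] at hdep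
  obtain ⟨g, hg0, i₀, hgi⟩ := hdep
  let lam : σ → ℝ := fun i => if h : i ∈ fracs y then g ⟨i, h⟩ else 0
  have hlam0 : ∑ i, lam i • w i = 0 := by
    rw [← hg0]
    rw [← Finset.sum_subset (Finset.subset_univ (fracs y))]
    · rw [← Finset.sum_coe_sort (fracs y)]
      apply Finset.sum_congr rfl
      intro i _
      simp only [lam, i.2, dite_true]
    · intro i _ hi
      simp only [lam, hi, dite_false, zero_smul]
  have hlamne : lam i₀ ≠ 0 := by
    simp only [lam, i₀.2, dite_true]
    exact hgi
  have hlamfr : ∀ i, lam i ≠ 0 → |y i| < 1 := by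
    intro i hi
    by_contra h
    have : i ∉ fracs y := by
      intro h2
      exact h (Finset.mem_filter.mp h2).2
    apply hi
    simp only [lam, this, dite_false]
  -- hitting times
  let τ : σ → ℝ := fun i => (1 - y i * (lam i / |lam i|)) / |lam i|
  obtain ⟨i₁, hi₁, hmin⟩ := Finset.exists_min_image
    (Finset.univ.filter (fun i => lam i ≠ 0)) τ ⟨i₀, by simp [hlamne]⟩
  have hi₁ne : lam i₁ ≠ 0 := (Finset.mem_filter.mp hi₁).2
  have hτpos : ∀ i, lam i ≠ 0 → 0 < τ i := by
    intro i hi
    have h1 := hlamfr i hi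
    have h2 : 0 < |lam i| := abs_pos.mpr hi
    apply div_pos _ h2
    have h3 : |y i * (lam i / |lam i|)| < 1 := by
      rw [abs_mul, abs_div, abs_abs, div_self h2.ne', mul_one]
      exact h1
    have := (abs_lt.mp h3).2
    linarith
  set t := τ i₁ with ht
  have htpos : 0 < t := hτpos i₁ hi₁ne
  let y' : σ → ℝ := fun i => y i + t * lam i
  have hbound : ∀ i, |y' i| ≤ 1 := by
    intro i
    by_cases hi : lam i = 0
    · simp only [y', hi, mul_zero, add_zero]
      exact hy1 i
    · have h2 : 0 < |lam i| := abs_pos.mpr hi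
      have h3 : t ≤ τ i := hmin i (by simp [hi])
      have h4 : t * |lam i| ≤ 1 - y i * (lam i / |lam i|) := by
        have := mul_le_mul_of_nonneg_right h3 h2.le
        simp only [τ] at this
        rwa [div_mul_cancel₀ _ h2.ne'] at this
      have h1 := abs_lt.mp (hlamfr i hi)
      simp only [y']
      rcases lt_or_gt_of_ne hi with hneg | hpos
      · rw [abs_of_neg hneg] at h4
        have h5 : lam i / -lam i = -1 := by
          rw [div_neg, div_self hi]
        rw [h5] at h4
        have h6 : t * lam i ≤ 0 := mul_nonpos_of_nonneg_of_nonpos htpos.le hneg.le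
        rw [abs_le]
        constructor <;> linarith [h1.1, h1.2]
      · rw [abs_of_pos hpos] at h4
        rw [div_self hi] at h4
        have h6 : 0 ≤ t * lam i := mul_nonneg htpos.le hpos.le
        rw [abs_le]
        constructor <;> linarith [h1.1, h1.2]
  have hy'0 : ∑ i, y' i • w i = 0 := by
    simp only [y', add_smul, Finset.sum_add_distrib, hy0, zero_add, mul_smul]
    rw [← Finset.smul_sum, hlam0, smul_zero]
  have hhit : ¬ |y' i₁| < 1 := by
    have h2 : 0 < |lam i₁| := abs_pos.mpr hi₁ne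
    have h4 : t * |lam i₁| = 1 - y i₁ * (lam i₁ / |lam i₁|) := by
      rw [ht]
      simp only [τ]
      rw [div_mul_cancel₀ _ h2.ne']
    simp only [y']
    rcases lt_or_gt_of_ne hi₁ne with hneg | hpos
    · rw [abs_of_neg hneg] at h4
      have h5 : lam i₁ / -lam i₁ = -1 := by
        rw [div_neg, div_self hi₁ne]
      rw [h5] at h4
      have : y i₁ + t * lam i₁ = -1 := by linarith
      rw [this]; simp
    · rw [abs_of_pos hpos, div_self hi₁ne] at h4
      have : y i₁ + t * lam i₁ = 1 := by linarith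
      rw [this]; simp
  have hlt : (fracs y').card < (fracs y).card := by
    apply Finset.card_lt_card
    rw [Finset.ssubset_iff_of_subset]
    · exact ⟨i₁, by simp [fracs, hlamfr i₁ hi₁ne], by simp [fracs]; exact not_lt.mp hhit⟩
    · intro i hi
      simp only [fracs, Finset.mem_filter, Finset.mem_univ, true_and] at hi ⊢
      by_cases h : lam i = 0
      · simp only [y', h, mul_zero, add_zero] at hi
        exact hi
      · exact hlamfr i h
  have := Nat.find_min hex (m := (fracs y').card) (by rw [← hyn]; exact hlt)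
  exact this ⟨y', hbound, hy'0, rfl⟩

/-- vector balancing with few zero coefficients -/
theorem balance {σ : Type} [Fintype σ] {d : ℕ} (w : σ → (Fin d → ℝ)) (ε : ℝ) (hε : 0 ≤ ε)
    (hw : ∀ i l, |w i l| ≤ ε) :
    ∃ x : σ → ℤ, (∀ i, x i = -1 ∨ x i = 0 ∨ x i = 1) ∧
      (Finset.univ.filter (fun i => x i = 0)).card ≤ d ∧
      ∀ l, |∑ i, (x i : ℝ) * w i l| ≤ d * ε := by
  classical
  obtain ⟨y, hy1, hy0, hyc⟩ := exists_few_fracs w
  let x : σ → ℤ := fun i => if y i = 1 then 1 else if y i = -1 then -1 else 0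
  have hx : ∀ i, x i = -1 ∨ x i = 0 ∨ x i = 1 := by
    intro i
    simp only [x]
    split_ifs <;> simp
  have hxy : ∀ i, i ∉ fracs y → (x i : ℝ) = y i := by
    intro i hi
    simp only [fracs, Finset.mem_filter, Finset.mem_univ, true_and, not_lt] at hi
    have h1 : |y i| = 1 := le_antisymm (hy1 i) hi
    rcases eq_or_eq_neg_of_abs_eq h1 with h | h
    · simp [x, h]
    · simp only [x, h, if_true]
      norm_num
  have hxf : ∀ i, i ∈ fracs y → x i = 0 := by
    intro i hi
    simp only [fracs, Finset.mem_filter, Finset.mem_univ, true_and] at hi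
    have h1 : ¬ (y i = 1) := by
      intro h; rw [h] at hi; norm_num at hi
    have h2 : ¬ (y i = -1) := by
      intro h; rw [h] at hi; norm_num at hi
    simp [x, h1, h2]
  refine ⟨x, hx, ?_, ?_⟩
  · refine le_trans (Finset.card_le_card ?_) hyc
    intro i hi
    simp only [Finset.mem_filter, Finset.mem_univ, true_and] at hi
    by_contra h
    have h1 := hxy i h
    rw [hi] at h1
    simp only [fracs, Finset.mem_filter, Finset.mem_univ, true_and, not_lt] at h
    rw [← h1] at h
    norm_num at h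
  · intro l
    have h0 : ∑ i, y i * w i l = 0 := by
      have := congrFun hy0 l
      simpa [Finset.sum_apply] using this
    have h1 : ∑ i, (x i : ℝ) * w i l = ∑ i ∈ fracs y, (-(y i)) * w i l := by
      have h2 : ∑ i, (x i : ℝ) * w i l = ∑ i, ((x i : ℝ) - y i) * w i l := by
        simp only [sub_mul, Finset.sum_sub_distrib, h0, sub_zero]
      rw [h2]
      symm
      rw [← Finset.sum_subset (Finset.subset_univ (fracs y))]
      · apply Finset.sum_congr rfl
        intro i hi
        rw [hxf i hi]; simp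
      · intro i _ hi
        rw [hxy i hi]; simp
    rw [h1]
    calc |∑ i ∈ fracs y, (-(y i)) * w i l| ≤ ∑ i ∈ fracs y, |(-(y i)) * w i l| :=
          Finset.abs_sum_le_sum_abs _ _
      _ ≤ ∑ i ∈ fracs y, ε := by
          apply Finset.sum_le_sum
          intro i _
          rw [abs_mul, abs_neg]
          calc |y i| * |w i l| ≤ 1 * ε :=
                mul_le_mul (hy1 i) (hw i l) (abs_nonneg _) (by norm_num)
            _ = ε := one_mul _
      _ = (fracs y).card * ε := by rw [Finset.sum_const, nsmul_eq_mul]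
      _ ≤ d * ε := by
          apply mul_le_mul_of_nonneg_right _ hε
          exact_mod_cast hyc

/-- pairing up all but few elements inside the classes of a map -/
theorem pairing {ι C : Type} [DecidableEq ι] [Fintype C] [DecidableEq C] (κ : ι → C) (n : ℕ) :
    ∀ J : Finset ι, J.card = n → ∃ P : Finset (ι × ι),
      (∀ p ∈ P, p.1 ∈ J ∧ p.2 ∈ J ∧ κ p.1 = κ p.2 ∧ p.1 ≠ p.2) ∧
      (∀ p ∈ P, ∀ q ∈ P, p ≠ q → p.1 ≠ q.1 ∧ p.1 ≠ q.2 ∧ p.2 ≠ q.1 ∧ p.2 ≠ q.2) ∧
      (J.filter (fun j => ∀ p ∈ P, p.1 ≠ j ∧ p.2 ≠ j)).card ≤ Fintype.card C := by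
  induction n using Nat.strong_induction_on with
  | _ n ih =>
    intro J hJ
    rcases Nat.lt_or_ge (Fintype.card C) J.card with h | h
    · obtain ⟨j, hj, j', hj', hne, hκ⟩ := Finset.exists_ne_map_eq_of_card_lt_of_maps_to
        (t := (Finset.univ : Finset C)) (by rwa [Finset.card_univ]) (f := κ)
        (fun _ _ => Finset.mem_univ _)
      have hj'2 : j' ∈ J.erase j := Finset.mem_erase.mpr ⟨hne.symm, hj'⟩
      have hc1 : ((J.erase j).erase j').card < n := by
        rw [Finset.card_erase_of_mem hj'2, Finset.card_erase_of_mem hj]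
        have : 0 < J.card := Finset.card_pos.mpr ⟨j, hj⟩
        omega
      obtain ⟨P, h1, h2, h3⟩ := ih _ hc1 ((J.erase j).erase j') rfl
      have hPJ : ∀ p ∈ P, p.1 ≠ j ∧ p.1 ≠ j' ∧ p.2 ≠ j ∧ p.2 ≠ j' ∧ p.1 ∈ J ∧ p.2 ∈ J := by
        intro p hp
        obtain ⟨ha, hb, _, _⟩ := h1 p hp
        simp only [Finset.mem_erase] at ha hb
        exact ⟨ha.2.1, ha.1, hb.2.1, hb.1, ha.2.2, hb.2.2⟩
      refine ⟨insert (j, j') P, ?_, ?_, ?_⟩
      · intro p hp
        rw [Finset.mem_insert] at hp
        rcases hp with rfl | hp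
        · exact ⟨hj, hj', hκ, hne⟩
        · have := hPJ p hp
          exact ⟨this.2.2.2.2.1, this.2.2.2.2.2, (h1 p hp).2.2.1, (h1 p hp).2.2.2⟩
      · intro p hp q hq hpq
        rw [Finset.mem_insert] at hp hq
        rcases hp with rfl | hp <;> rcases hq with rfl | hq
        · exact absurd rfl hpq
        · have := hPJ q hq
          exact ⟨this.1.symm, this.2.2.1.symm, this.2.1.symm, this.2.2.2.1.symm⟩
        · have := hPJ p hp
          exact ⟨this.1, this.2.1, this.2.2.1, this.2.2.2.1⟩
        · exact h2 p hp q hq hpq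
      · refine le_trans (Finset.card_le_card ?_) h3
        intro i hi
        rw [Finset.mem_filter] at hi ⊢
        have hi0 := hi.2 (j, j') (Finset.mem_insert_self _ _)
        refine ⟨?_, fun p hp => hi.2 p (Finset.mem_insert_of_mem hp)⟩
        rw [Finset.mem_erase, Finset.mem_erase]
        exact ⟨fun h => hi0.2 h.symm, fun h => hi0.1 h.symm, hi.1⟩
    · refine ⟨∅, by simp, by simp, ?_⟩
      exact le_trans (Finset.card_filter_le _ _) h

/-- any many vectors in the torus have a signed sum close to zero, with few zero coefficients -/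
theorem signed_sum {ι : Type} [DecidableEq ι] {d N : ℕ} (hN : 0 < N) (J : Finset ι)
    (v : ι → (Fin d → ℝ)) :
    ∃ c : ι → ℤ, (∀ j, c j = -1 ∨ c j = 0 ∨ c j = 1) ∧ (∀ j, j ∉ J → c j = 0) ∧
      (J.filter (fun j => c j = 0)).card ≤ N ^ d + 2 * d ∧
      ∀ l, ∃ z : ℤ, |∑ j ∈ J, (c j : ℝ) * v j l - z| ≤ d / N := by
  classical
  have hNr : (0 : ℝ) < N := by exact_mod_cast hN
  let f : ι → Fin d → ℝ := fun j l => Int.fract (v j l)
  have hf0 : ∀ j l, 0 ≤ f j l := fun j l => Int.fract_nonneg _
  have hf1 : ∀ j l, f j l < 1 := fun j l => Int.fract_lt_one _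
  let κ : ι → (Fin d → Fin N) := fun j l => ⟨⌊(N : ℝ) * f j l⌋₊, by
    rw [Nat.floor_lt (mul_nonneg hNr.le (hf0 j l))]
    have := hf1 j l
    nlinarith⟩
  obtain ⟨P, h1, h2, h3⟩ := pairing κ J.card J rfl
  have hcardC : Fintype.card (Fin d → Fin N) = N ^ d := by simp
  rw [hcardC] at h3
  have hw : ∀ (p : P) (l : Fin d), |f p.1.1 l - f p.1.2 l| ≤ 1 / N := by
    intro p l
    have hk := congrFun (h1 p.1 p.2).2.2.1 l
    have hk' : ⌊(N : ℝ) * f p.1.1 l⌋₊ = ⌊(N : ℝ) * f p.1.2 l⌋₊ := by
      have := congrArg Fin.val hk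
      exact this
    have ha1 := Nat.floor_le (mul_nonneg hNr.le (hf0 p.1.1 l))
    have ha2 := Nat.lt_floor_add_one ((N : ℝ) * f p.1.1 l)
    have hb1 := Nat.floor_le (mul_nonneg hNr.le (hf0 p.1.2 l))
    have hb2 := Nat.lt_floor_add_one ((N : ℝ) * f p.1.2 l)
    rw [hk'] at ha1 ha2
    rw [le_div_iff₀ hNr, ← abs_of_pos hNr, ← abs_mul, abs_le]
    constructor <;> nlinarith
  obtain ⟨x, hx1, hx2, hx3⟩ := balance (σ := P) (fun p l => f p.1.1 l - f p.1.2 l) (1 / N)
    (by positivity) hw
  let c : ι → ℤ := fun j => ∑ p : P, x p * ((if p.1.1 = j then 1 else 0) - (if p.1.2 = j then 1 else 0))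
  -- values of c
  have hcov1 : ∀ p : P, c p.1.1 = x p := by
    intro p
    simp only [c]
    rw [Finset.sum_eq_single p]
    · have := (h1 p.1 p.2).2.2.2
      simp [this.symm]
    · intro q _ hq
      have hne : q.1 ≠ p.1 := fun h => hq (Subtype.ext h)
      have := h2 q.1 q.2 p.1 p.2 hne
      simp [this.1, this.2.2.1]
    · intro h; exact absurd (Finset.mem_univ _) h
  have hcov2 : ∀ p : P, c p.1.2 = - x p := by
    intro p
    simp only [c]
    rw [Finset.sum_eq_single p]
    · have := (h1 p.1 p.2).2.2.2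
      simp [this]
    · intro q _ hq
      have hne : q.1 ≠ p.1 := fun h => hq (Subtype.ext h)
      have := h2 q.1 q.2 p.1 p.2 hne
      simp [this.2.1, this.2.2.2]
    · intro h; exact absurd (Finset.mem_univ _) h
  have hunc : ∀ j, (∀ p ∈ P, p.1 ≠ j ∧ p.2 ≠ j) → c j = 0 := by
    intro j hj
    simp only [c]
    apply Finset.sum_eq_zero
    intro p _
    have := hj p.1 p.2
    simp [this.1, this.2]
  have hcases : ∀ j, (∀ p ∈ P, p.1 ≠ j ∧ p.2 ≠ j) ∨ ∃ p : P, p.1.1 = j ∨ p.1.2 = j := by
    intro j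
    by_cases h : ∀ p ∈ P, p.1 ≠ j ∧ p.2 ≠ j
    · left; exact h
    · right
      push Not at h
      obtain ⟨p, hp, hpj⟩ := h
      by_cases h' : p.1 = j
      · exact ⟨⟨p, hp⟩, Or.inl h'⟩
      · exact ⟨⟨p, hp⟩, Or.inr (hpj h')⟩
  refine ⟨c, ?_, ?_, ?_, ?_⟩
  · intro j
    rcases hcases j with h | ⟨p, h | h⟩
    · right; left; exact hunc j h
    · rw [← h, hcov1]; exact hx1 p
    · rw [← h, hcov2]
      rcases hx1 p with h | h | h <;> rw [h] <;> simp
  · intro j hj
    apply hunc
    intro p hp
    have := h1 p hp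
    exact ⟨fun h => hj (h ▸ this.1), fun h => hj (h ▸ this.2.1)⟩
  · have hsub : J.filter (fun j => c j = 0) ⊆
        (J.filter (fun j => ∀ p ∈ P, p.1 ≠ j ∧ p.2 ≠ j)) ∪
        (((Finset.univ.filter (fun p : P => x p = 0)).image (fun p : P => p.1.1)) ∪
        ((Finset.univ.filter (fun p : P => x p = 0)).image (fun p : P => p.1.2))) := by
      intro j hj
      rw [Finset.mem_filter] at hj
      rw [Finset.mem_union]
      rcases hcases j with h | ⟨p, h | h⟩
      · left; rw [Finset.mem_filter]; exact ⟨hj.1, h⟩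
      · right
        rw [Finset.mem_union]; left
        rw [Finset.mem_image]
        refine ⟨p, ?_, h⟩
        simp only [Finset.mem_filter, Finset.mem_univ, true_and]
        rw [← hcov1, h]; exact hj.2
      · right
        rw [Finset.mem_union]; right
        rw [Finset.mem_image]
        refine ⟨p, ?_, h⟩
        simp only [Finset.mem_filter, Finset.mem_univ, true_and]
        have := hcov2 p
        rw [h, hj.2] at this
        omega
    refine le_trans (Finset.card_le_card hsub) ?_
    refine le_trans (Finset.card_union_le _ _) ?_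
    have e1 := Finset.card_union_le
      ((Finset.univ.filter (fun p : P => x p = 0)).image (fun p : P => p.1.1))
      ((Finset.univ.filter (fun p : P => x p = 0)).image (fun p : P => p.1.2))
    have e2 : ((Finset.univ.filter (fun p : P => x p = 0)).image (fun p : P => p.1.1)).card ≤ d :=
      le_trans Finset.card_image_le hx2
    have e3 : ((Finset.univ.filter (fun p : P => x p = 0)).image (fun p : P => p.1.2)).card ≤ d :=
      le_trans Finset.card_image_le hx2
    omega
  · intro l
    refine ⟨∑ j ∈ J, c j * ⌊v j l⌋, ?_⟩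
    have hsum : ∑ j ∈ J, (c j : ℝ) * v j l - ((∑ j ∈ J, c j * ⌊v j l⌋ : ℤ) : ℝ)
        = ∑ j ∈ J, (c j : ℝ) * f j l := by
      push_cast
      rw [← Finset.sum_sub_distrib]
      apply Finset.sum_congr rfl
      intro j _
      simp only [f]
      have := Int.self_sub_floor (v j l)
      rw [← this]; ring
    rw [hsum]
    have hsum2 : ∑ j ∈ J, (c j : ℝ) * f j l = ∑ p : P, (x p : ℝ) * (f p.1.1 l - f p.1.2 l) := by
      simp only [c]
      push_cast
      simp_rw [Finset.sum_mul]
      rw [Finset.sum_comm]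
      apply Finset.sum_congr rfl
      intro p _
      have hp := h1 p.1 p.2
      have e1 : ∑ j ∈ J, (if p.1.1 = j then (1 : ℝ) else 0) * f j l = f p.1.1 l := by
        simp [hp.1]
      have e2 : ∑ j ∈ J, (if p.1.2 = j then (1 : ℝ) else 0) * f j l = f p.1.2 l := by
        simp [hp.2.1]
      rw [← e1, ← e2, ← Finset.sum_sub_distrib, Finset.mul_sum]
      apply Finset.sum_congr rfl
      intro j _
      ring
    rw [hsum2]
    have := hx3 l
    rw [mul_one_div] at this
    exact this

end Pool.Agent.R446
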