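import Pool.Agent.R446.Kernel

open Finset

namespace Pool.Agent.R446

/-- the dual weight: the renewal sequence started from both ends of the interval [0, N) -/
noncomputable def wt (k N b : ℕ) : ℝ := ren k (min b (N - 1 - b))

/-- the convolution of the kernel with the dual weight -/
noncomputable def pot (k N w : ℕ) : ℝ := ∑ b ∈ range N, ker k w b * wt k N b

theorem wt_nonneg (k N b : ℕ) : 0 ≤ wt k N b := (ren_mem k _).1

theorem sum_lin_le (k n : ℕ) : ∑ i ∈ range n, ((k - i : ℕ) : ℝ) ≤ k * (k + 1) / 2 := by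
  rcases n with _ | n
  · simp; positivity
  · rw [Finset.sum_range_succ']
    have := tri_le k n
    simp only [Nat.sub_zero]
    linarith

theorem sum_ker_eq (k N w : ℕ) (f : ℕ → ℝ) (hw : w < N) :
    ∑ b ∈ range N, ker k w b * f b = ∑ i ∈ range (w + 1), ((k - i : ℕ) : ℝ) * f (w - i) := by
  have h1 : ∑ b ∈ range (w + 1), ker k w b * f b = ∑ b ∈ range N, ker k w b * f b := by
    apply Finset.sum_subset
    · intro i hi
      rw [Finset.mem_range] at hi ⊢
      omega
    · intro i _ hi2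
      rw [Finset.mem_range] at hi2
      unfold ker
      rw [if_neg (by omega), zero_mul]
  rw [← h1, ← Finset.sum_range_reflect]
  apply Finset.sum_congr rfl
  intro i hi
  rw [Finset.mem_range] at hi
  unfold ker
  rw [if_pos (by omega)]
  rw [show w - (w + 1 - 1 - i) = i by omega, show w + 1 - 1 - i = w - i by omega]

theorem sum_ker_le (k N w : ℕ) (hw : w < N) :
    ∑ b ∈ range N, ker k w b ≤ k * (k + 1) / 2 := by
  have := sum_ker_eq k N w (fun _ => 1) hw
  simp only [mul_one] at this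
  rw [this]
  exact sum_lin_le k _

theorem sum_ker_eq' (k N a : ℕ) (ha : a < N) :
    ∑ w ∈ range (N + k), ker k w a = k * (k + 1) / 2 := by
  have h1 : ∑ w ∈ Finset.Ico a (a + k), ker k w a = ∑ w ∈ range (N + k), ker k w a := by
    apply Finset.sum_subset
    · intro i hi
      rw [Finset.mem_Ico] at hi
      rw [Finset.mem_range]
      omega
    · intro i _ hi2
      rw [Finset.mem_Ico] at hi2
      unfold ker
      by_cases h : a ≤ i
      · have : k - (i - a) = 0 := by omega
        rw [this]; simp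
      · rw [if_neg h]
  rw [← h1, Finset.sum_Ico_eq_sum_range, ← sum_lin]
  rw [show a + k - a = k by omega]
  apply Finset.sum_congr rfl
  intro i _
  unfold ker
  rw [if_pos (by omega), show a + i - a = i by omega]

theorem wt_near (k N r b : ℕ) (hk : 0 < k) (hr : (r + 1) * k + 2 ≤ N / 2)
    (hb : b < (N + 1) / 2 + k) : |wt k N b - ren k b| ≤ 2 * (15 / 16) ^ r := by
  rcases Nat.lt_or_ge b ((N + 1) / 2) with h | h
  · unfold wt
    rw [show min b (N - 1 - b) = b by omega, sub_self, abs_zero]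
    positivity
  · have h0 : (r + 1) * k = r * k + k := by ring
    have h1 := ren_limit k r hk b (by omega)
    have h2 := ren_limit k r hk (min b (N - 1 - b)) (by omega)
    unfold wt
    have h3 := abs_sub_le (ren k (min b (N - 1 - b))) (2 / (k + 1)) (ren k b)
    rw [abs_sub_comm (2 / ((k : ℝ) + 1)) (ren k b)] at h3
    linarith

theorem pot_near (k N r w : ℕ) (hk : 0 < k) (hr : (r + 1) * k + 2 ≤ N / 2)
    (hw : w < (N + 1) / 2 + k) : |pot k N w - k| ≤ 2 * (15 / 16) ^ r * (k * (k + 1) / 2) := by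
  have h0 : (r + 1) * k = r * k + k := by ring
  have hwN : w < N := by omega
  have hflat := ren_flat k w hk
  rw [← sum_ker_eq k N w (ren k) hwN] at hflat
  unfold pot
  have e1 : ∑ b ∈ range N, ker k w b * wt k N b - k
      = ∑ b ∈ range N, ker k w b * (wt k N b - ren k b) := by
    nth_rw 1 [← hflat]
    rw [← Finset.sum_sub_distrib]
    apply Finset.sum_congr rfl
    intro b _
    ring
  rw [e1]
  calc |∑ b ∈ range N, ker k w b * (wt k N b - ren k b)|
      ≤ ∑ b ∈ range N, |ker k w b * (wt k N b - ren k b)| := Finset.abs_sum_le_sum_abs _ _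
    _ ≤ ∑ b ∈ range N, ker k w b * (2 * (15 / 16) ^ r) := by
        apply Finset.sum_le_sum
        intro b _
        rw [abs_mul, abs_of_nonneg (ker_nonneg k w b)]
        by_cases hbw : b ≤ w
        · apply mul_le_mul_of_nonneg_left _ (ker_nonneg k w b)
          exact wt_near k N r b hk hr (by omega)
        · have : ker k w b = 0 := by
            unfold ker; rw [if_neg hbw]
          rw [this]; simp
    _ = (∑ b ∈ range N, ker k w b) * (2 * (15 / 16) ^ r) := by rw [Finset.sum_mul]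
    _ ≤ (k * (k + 1) / 2) * (2 * (15 / 16) ^ r) := by
        apply mul_le_mul_of_nonneg_right (sum_ker_le k N w hwN)
        positivity
    _ = 2 * (15 / 16) ^ r * (k * (k + 1) / 2) := by ring

theorem gram_near_left (k N r a : ℕ) (hk : 0 < k) (hr : (r + 1) * k + 2 ≤ N / 2)
    (ha : a < (N + 1) / 2) :
    |∑ w ∈ range (N + k), ker k w a * pot k N w - k * (k * (k + 1) / 2)|
      ≤ 2 * (15 / 16) ^ r * (k * (k + 1) / 2) ^ 2 := by
  have h0 : (r + 1) * k = r * k + k := by ring
  have haN : a < N := by omega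
  have hs := sum_ker_eq' k N a haN
  have e1 : ∑ w ∈ range (N + k), ker k w a * pot k N w - k * (k * (k + 1) / 2)
      = ∑ w ∈ range (N + k), ker k w a * (pot k N w - k) := by
    rw [← hs, Finset.mul_sum, ← Finset.sum_sub_distrib]
    apply Finset.sum_congr rfl
    intro w _
    ring
  rw [e1]
  calc |∑ w ∈ range (N + k), ker k w a * (pot k N w - k)|
      ≤ ∑ w ∈ range (N + k), |ker k w a * (pot k N w - k)| := Finset.abs_sum_le_sum_abs _ _
    _ ≤ ∑ w ∈ range (N + k), ker k w a * (2 * (15 / 16) ^ r * (k * (k + 1) / 2)) := by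
        apply Finset.sum_le_sum
        intro w _
        rw [abs_mul, abs_of_nonneg (ker_nonneg k w a)]
        by_cases hbw : w < a + k
        · apply mul_le_mul_of_nonneg_left _ (ker_nonneg k w a)
          exact pot_near k N r w hk hr (by omega)
        · have : ker k w a = 0 := by
            unfold ker
            split_ifs
            · have : k - (w - a) = 0 := by omega
              rw [this]; simp
            · rfl
          rw [this]; simp
    _ = (∑ w ∈ range (N + k), ker k w a) * (2 * (15 / 16) ^ r * (k * (k + 1) / 2)) := by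
        rw [Finset.sum_mul]
    _ = 2 * (15 / 16) ^ r * (k * (k + 1) / 2) ^ 2 := by rw [hs]; ring

theorem gram_eq (k N a : ℕ) (ha : a < N) :
    ∑ w ∈ range (N + k), ker k w a * pot k N w
      = ∑ b ∈ range N, cor k ((a - b) + (b - a)) * wt k N b := by
  unfold pot
  simp_rw [Finset.mul_sum]
  rw [Finset.sum_comm]
  apply Finset.sum_congr rfl
  intro b hb
  rw [Finset.mem_range] at hb
  rw [← ker_gram k N a b ha hb, Finset.sum_mul]
  apply Finset.sum_congr rfl
  intro w _
  ring

theorem gram_symm (k N a : ℕ) (ha : a < N) :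
    ∑ b ∈ range N, cor k ((a - b) + (b - a)) * wt k N b
      = ∑ b ∈ range N, cor k (((N - 1 - a) - b) + (b - (N - 1 - a))) * wt k N b := by
  rw [← Finset.sum_range_reflect]
  apply Finset.sum_congr rfl
  intro b hb
  rw [Finset.mem_range] at hb
  unfold wt
  rw [show (a - (N - 1 - b)) + (N - 1 - b - a) = ((N - 1 - a) - b) + (b - (N - 1 - a)) by omega]
  rw [show min (N - 1 - b) (N - 1 - (N - 1 - b)) = min b (N - 1 - b) by omega]

theorem gram_near (k N r a : ℕ) (hk : 0 < k) (hr : (r + 1) * k + 2 ≤ N / 2) (ha : a < N) :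
    |∑ w ∈ range (N + k), ker k w a * pot k N w - k * (k * (k + 1) / 2)|
      ≤ 2 * (15 / 16) ^ r * (k * (k + 1) / 2) ^ 2 := by
  rcases Nat.lt_or_ge a ((N + 1) / 2) with h | h
  · exact gram_near_left k N r a hk hr h
  · rw [gram_eq k N a ha, gram_symm k N a ha, ← gram_eq k N (N - 1 - a) (by omega)]
    exact gram_near_left k N r (N - 1 - a) hk hr (by omega)

theorem tet_le (m N : ℕ) :
    ∑ d ∈ range N, ((m - (d + 1) : ℕ) : ℝ) * (((m - (d + 1) : ℕ) : ℝ) + 1) / 2
      ≤ (m - 1) * m * (m + 1) / 6 := by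
  induction m generalizing N with
  | zero => simp
  | succ m ih =>
    rcases N with _ | N
    · simp; positivity
    · rw [Finset.sum_range_succ']
      simp only [Nat.add_sub_add_right, Nat.zero_add]
      have := ih N
      push_cast
      linarith

theorem ren_sum_eq (k M : ℕ) (hk : 0 < k) :
    (k * (k + 1) / 2 : ℝ) * ∑ b ∈ range M, ren k b
      = k * M + ∑ i ∈ range M,
        ((k - (i + 1) : ℕ) : ℝ) * (((k - (i + 1) : ℕ) : ℝ) + 1) / 2 * ren k (M - 1 - i) := by
  induction M with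
  | zero => simp
  | succ M ih =>
    rw [Finset.sum_range_succ, mul_add, ih]
    have hf := ren_flat k M hk
    rw [Finset.sum_range_succ'] at hf ⊢
    simp only [Nat.sub_zero, Nat.zero_add, Nat.add_sub_cancel] at hf ⊢
    have e1 : ∑ i ∈ range M,
        ((k - (i + 1) : ℕ) : ℝ) * (((k - (i + 1) : ℕ) : ℝ) + 1) / 2 * ren k (M - 1 - i)
        = ∑ i ∈ range M, ((k - (i + 1 + 1) : ℕ) : ℝ) * (((k - (i + 1 + 1) : ℕ) : ℝ) + 1) / 2
            * ren k (M - (i + 1))
        + ∑ i ∈ range M, ((k - (i + 1) : ℕ) : ℝ) * ren k (M - (i + 1)) := by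
      rw [← Finset.sum_add_distrib]
      apply Finset.sum_congr rfl
      intro i _
      rw [show M - 1 - i = M - (i + 1) by omega]
      rcases Nat.eq_zero_or_pos (k - (i + 1)) with h | h
      · have h' : k - (i + 1 + 1) = 0 := by omega
        rw [h, h']; simp
      · have h' : ((k - (i + 1) : ℕ) : ℝ) = ((k - (i + 1 + 1) : ℕ) : ℝ) + 1 := by
          have : k - (i + 1) = (k - (i + 1 + 1)) + 1 := by omega
          rw [this]; push_cast; ring
        rw [h']; ring
    rw [e1]
    have h1 : ((k - 1 : ℕ) : ℝ) = k - 1 := by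
      rw [Nat.cast_sub hk]; simp
    rw [h1]
    push_cast
    linarith

theorem ren_sum_le (k M r : ℕ) (hk : 0 < k) (hM : (r + 1) * k ≤ M) :
    (k * (k + 1) / 2 : ℝ) * ∑ b ∈ range M, ren k b
      ≤ k * M + (2 / (k + 1) + (15 / 16) ^ r) * ((k - 1) * k * (k + 1) / 6) := by
  rw [ren_sum_eq k M hk]
  have h0 : (r + 1) * k = r * k + k := by ring
  have h1 : ∑ i ∈ range M,
        ((k - (i + 1) : ℕ) : ℝ) * (((k - (i + 1) : ℕ) : ℝ) + 1) / 2 * ren k (M - 1 - i)
      ≤ ∑ i ∈ range M, ((k - (i + 1) : ℕ) : ℝ) * (((k - (i + 1) : ℕ) : ℝ) + 1) / 2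
          * (2 / (k + 1) + (15 / 16) ^ r) := by
    apply Finset.sum_le_sum
    intro i hi
    rcases Nat.eq_zero_or_pos (k - (i + 1)) with h | h
    · rw [h]; simp
    · apply mul_le_mul_of_nonneg_left _ (by positivity)
      have := ren_limit k r hk (M - 1 - i) (by omega)
      have := (abs_le.mp this).2
      linarith
  rw [← Finset.sum_mul] at h1
  have h2 := tet_le k M
  have h3 : (0 : ℝ) ≤ 2 / (k + 1) + (15 / 16) ^ r := by positivity
  have h4 := mul_le_mul_of_nonneg_right h2 h3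
  linarith

theorem wt_sum (k N : ℕ) :
    ∑ b ∈ range N, wt k N b = ∑ b ∈ range ((N + 1) / 2), ren k b + ∑ b ∈ range (N / 2), ren k b := by
  have h1 : ∑ b ∈ range N, wt k N b
      = ∑ b ∈ range ((N + 1) / 2), wt k N b + ∑ b ∈ Finset.Ico ((N + 1) / 2) N, wt k N b := by
    rw [Finset.sum_range_add_sum_Ico _ (by omega)]
  rw [h1]
  congr 1
  · apply Finset.sum_congr rfl
    intro b hb
    rw [Finset.mem_range] at hb
    unfold wt
    rw [show min b (N - 1 - b) = b by omega]
  · rw [Finset.sum_Ico_eq_sum_range, ← Finset.sum_range_reflect]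
    rw [show N - (N + 1) / 2 = N / 2 by omega]
    apply Finset.sum_congr rfl
    intro b hb
    rw [Finset.mem_range] at hb
    unfold wt
    rw [show min ((N + 1) / 2 + (N / 2 - 1 - b)) (N - 1 - ((N + 1) / 2 + (N / 2 - 1 - b))) = b
      by omega]

theorem wt_sum_le (k N r : ℕ) (hk : 0 < k) (hr : (r + 1) * k + 2 ≤ N / 2) :
    (k * (k + 1) / 2 : ℝ) * ∑ b ∈ range N, wt k N b
      ≤ k * (N + (2 + (k + 1) * (15 / 16) ^ r) * (k - 1) / 3) := by
  rw [wt_sum, mul_add]
  have h1 := ren_sum_le k ((N + 1) / 2) r hk (by omega)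
  have h2 := ren_sum_le k (N / 2) r hk (by omega)
  have h3 : (((N + 1) / 2 : ℕ) : ℝ) + ((N / 2 : ℕ) : ℝ) = N := by
    have : (N + 1) / 2 + N / 2 = N := by omega
    exact_mod_cast this
  have h4 : (2 / ((k : ℝ) + 1) + (15 / 16) ^ r) * ((k - 1) * k * (k + 1) / 6)
      = k * ((2 + (k + 1) * (15 / 16) ^ r) * (k - 1) / 6) := by
    have : (k : ℝ) + 1 ≠ 0 := by positivity
    field_simp
  rw [h4] at h1 h2
  have h5 : (k : ℝ) * (((N + 1) / 2 : ℕ) : ℝ) + k * ((N / 2 : ℕ) : ℝ) = k * N := by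
    rw [← mul_add, h3]
  nlinarith [h1, h2, h5]

/-- the main inequality -/
theorem main_ineq (A : Finset ℕ) (k g N r : ℕ) (hk : 0 < k) (hr : (r + 1) * k + 2 ≤ N / 2)
    (hA : ∀ a ∈ A, a < N)
    (hg : ∀ d, 0 < d → ((A ×ˢ A).filter (fun p => p.1 + d = p.2)).card ≤ g)
    (ε : ℝ) (hε : ε = (k + 1) * (15 / 16) ^ r) (hε1 : ε ≤ 1) :
    (A.card : ℝ) ^ 2 * (k * (k + 1) / 2) ^ 2 * (1 - ε) ^ 2
      ≤ (A.card * cor k 0 + g * ((k * (k + 1) / 2) ^ 2 - cor k 0)) * (1 + ε)
        * (N + (2 + ε) * (k - 1) / 3) := by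
  set K : ℝ := k * (k + 1) / 2 with hK
  set δ : ℝ := (15 / 16) ^ r with hδ
  have hkr : (0 : ℝ) < k := by exact_mod_cast hk
  have hKpos : 0 < K := by positivity
  have hδ0 : 0 ≤ δ := by positivity
  have hε0 : 0 ≤ ε := by rw [hε]; positivity
  have hεK : 2 * δ * K ^ 2 = ε * (k * K) := by rw [hε, hK]; ring
  set f : ℕ → ℝ := fun w => ∑ a ∈ A, ker k w a with hf
  have hcs := Finset.sum_mul_sq_le_sq_mul_sq (range (N + k)) f (fun w => pot k N w)
  have hfP : ∑ w ∈ range (N + k), f w * pot k N w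
      = ∑ a ∈ A, ∑ w ∈ range (N + k), ker k w a * pot k N w := by
    rw [Finset.sum_comm]
    apply Finset.sum_congr rfl
    intro w _
    rw [hf, Finset.sum_mul]
  have hlow : (A.card : ℝ) * ((k * K) * (1 - ε)) ≤ ∑ w ∈ range (N + k), f w * pot k N w := by
    rw [hfP, ← nsmul_eq_mul]
    apply Finset.card_nsmul_le_sum
    intro a ha
    have := (abs_le.mp (gram_near k N r a hk hr (hA a ha))).1
    rw [← hK, ← hδ] at this
    linarith
  have hff : ∑ w ∈ range (N + k), f w ^ 2 = ∑ a ∈ A, ∑ b ∈ A, cor k ((a - b) + (b - a)) := by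
    have e1 : ∀ w, f w ^ 2 = ∑ a ∈ A, ∑ b ∈ A, ker k w a * ker k w b := by
      intro w
      rw [hf, sq, Finset.sum_mul_sum]
    simp_rw [e1]
    rw [Finset.sum_comm]
    apply Finset.sum_congr rfl
    intro a ha
    rw [Finset.sum_comm]
    apply Finset.sum_congr rfl
    intro b hb
    exact ker_gram k N a b (hA a ha) (hA b hb)
  have hE := energy_le A k g N hA hg
  rw [← hff] at hE
  have hPP : ∑ w ∈ range (N + k), pot k N w ^ 2
      = ∑ b ∈ range N, wt k N b * ∑ w ∈ range (N + k), ker k w b * pot k N w := by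
    have e1 : ∀ w, pot k N w ^ 2 = ∑ b ∈ range N, wt k N b * (ker k w b * pot k N w) := by
      intro w
      rw [sq]
      nth_rw 1 [pot]
      rw [Finset.sum_mul]
      apply Finset.sum_congr rfl
      intro b _
      ring
    simp_rw [e1]
    rw [Finset.sum_comm]
    apply Finset.sum_congr rfl
    intro b _
    rw [Finset.mul_sum]
  have hPPle : ∑ w ∈ range (N + k), pot k N w ^ 2
      ≤ (k * K * (1 + ε)) * ∑ b ∈ range N, wt k N b := by
    rw [hPP, Finset.mul_sum]
    apply Finset.sum_le_sum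
    intro b hb
    rw [Finset.mem_range] at hb
    rw [mul_comm (k * K * (1 + ε))]
    apply mul_le_mul_of_nonneg_left _ (wt_nonneg k N b)
    have := (abs_le.mp (gram_near k N r b hk hr hb)).2
    rw [← hK, ← hδ] at this
    linarith
  have hW := wt_sum_le k N r hk hr
  rw [← hε] at hW
  have hlow0 : 0 ≤ (A.card : ℝ) * ((k * K) * (1 - ε)) := by
    apply mul_nonneg (Nat.cast_nonneg _)
    apply mul_nonneg (by positivity)
    linarith
  have hstep1 : ((A.card : ℝ) * ((k * K) * (1 - ε))) ^ 2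
      ≤ (∑ w ∈ range (N + k), f w ^ 2) * ∑ w ∈ range (N + k), pot k N w ^ 2 :=
    le_trans (pow_le_pow_left₀ hlow0 hlow 2) hcs
  have hff0 : 0 ≤ ∑ w ∈ range (N + k), f w ^ 2 := Finset.sum_nonneg (fun _ _ => sq_nonneg _)
  have hstep2 : ((A.card : ℝ) * ((k * K) * (1 - ε))) ^ 2 * K
      ≤ (∑ w ∈ range (N + k), f w ^ 2) * ((k * K * (1 + ε)) *
        (k * (N + (2 + ε) * (k - 1) / 3))) := by
    calc ((A.card : ℝ) * ((k * K) * (1 - ε))) ^ 2 * K
        ≤ ((∑ w ∈ range (N + k), f w ^ 2) * ((k * K * (1 + ε)) * ∑ b ∈ range N, wt k N b)) * K := by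
          apply mul_le_mul_of_nonneg_right _ hKpos.le
          exact le_trans hstep1 (mul_le_mul_of_nonneg_left hPPle hff0)
      _ = (∑ w ∈ range (N + k), f w ^ 2) * ((k * K * (1 + ε)) * (K * ∑ b ∈ range N, wt k N b)) := by
          ring
      _ ≤ _ := by
          apply mul_le_mul_of_nonneg_left _ hff0
          apply mul_le_mul_of_nonneg_left hW (by positivity)
  have hstep3 : (A.card : ℝ) ^ 2 * K ^ 2 * (1 - ε) ^ 2
      ≤ (∑ w ∈ range (N + k), f w ^ 2) * ((1 + ε) * (N + (2 + ε) * (k - 1) / 3)) := by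
    have hpos : 0 < (k : ℝ) ^ 2 * K := by positivity
    have : ((k : ℝ) ^ 2 * K) * ((A.card : ℝ) ^ 2 * K ^ 2 * (1 - ε) ^ 2)
        ≤ ((k : ℝ) ^ 2 * K) * ((∑ w ∈ range (N + k), f w ^ 2) *
          ((1 + ε) * (N + (2 + ε) * (k - 1) / 3))) := by
      calc _ = ((A.card : ℝ) * ((k * K) * (1 - ε))) ^ 2 * K := by ring
        _ ≤ _ := hstep2
        _ = _ := by ring
    exact le_of_mul_le_mul_left this hpos
  have hk1 : (0 : ℝ) ≤ k - 1 := by
    have : (1 : ℝ) ≤ k := by exact_mod_cast hk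
    linarith
  have hpos2 : 0 ≤ (1 + ε) * (N + (2 + ε) * (k - 1) / 3) := by positivity
  calc _ ≤ _ := hstep3
    _ ≤ (A.card * cor k 0 + g * (K ^ 2 - cor k 0)) * ((1 + ε) * (N + (2 + ε) * (k - 1) / 3)) :=
      mul_le_mul_of_nonneg_right hE hpos2
    _ = _ := by ring

end Pool.Agent.R446
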