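import Pool.Agent.R446.IPTypes

open Finset

namespace Pool.Agent.R446

/-- decomposition of a signed sum of half moduli minus a sum of moduli -/
theorem decomp (c : ℕ → ℤ) (hc : ∀ j, c j = -1 ∨ c j = 0 ∨ c j = 1) (Bl F : Finset ℕ)
    (hout : ∀ j, j ∉ Bl → c j = 0) (j : ℕ) :
    ∃ e z : ℤ, |e| ≤ HH j ∧
      ∑ j' ∈ Bl, c j' * ((MM j' : ℤ) / 2) - ∑ f ∈ F, (MM f : ℤ)
        = c j * ((MM j : ℤ) / 2) + e + MM j * z := by
  classical
  obtain ⟨R, hR⟩ : ∃ R : ℕ, ∀ x ∈ Bl ∪ F ∪ {j}, x < R :=
    ⟨(Bl ∪ F ∪ {j}).sup id + 1, fun x hx => Nat.lt_succ_of_le (Finset.le_sup (f := id) hx)⟩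
  have hjR : j < R := hR j (by simp)
  let a : ℕ → ℤ := fun x => c x * ((MM x : ℤ) / 2) - (if x ∈ F then (MM x : ℤ) else 0)
  have hsum : ∑ j' ∈ Bl, c j' * ((MM j' : ℤ) / 2) - ∑ f ∈ F, (MM f : ℤ) = ∑ x ∈ range R, a x := by
    simp only [a]
    rw [Finset.sum_sub_distrib]
    congr 1
    · apply Finset.sum_subset
      · intro x hx
        exact Finset.mem_range.mpr (hR x (by simp [hx]))
      · intro x _ hx
        rw [hout x hx, zero_mul]
    · rw [← Finset.sum_filter]
      apply Finset.sum_congr _ (fun _ _ => rfl)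
      ext x
      simp only [Finset.mem_filter, Finset.mem_range]
      constructor
      · intro hx; exact ⟨hR x (by simp [hx]), hx⟩
      · intro hx; exact hx.2
  have hsplit : ∑ x ∈ range R, a x = ∑ x ∈ range j, a x + a j + ∑ x ∈ Finset.Ico (j + 1) R, a x := by
    rw [← Finset.sum_range_succ, Finset.sum_range_add_sum_Ico _ (by omega)]
  have hdvd1 : (MM j : ℤ) ∣ ∑ x ∈ Finset.Ico (j + 1) R, a x := by
    apply Finset.dvd_sum
    intro x hx
    rw [Finset.mem_Ico] at hx
    simp only [a]
    apply dvd_sub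
    · apply dvd_mul_of_dvd_right
      have h1 : MM j ∣ MM x / 2 := MM_dvd_half (by omega)
      have h2 : ((MM j : ℕ) : ℤ) ∣ ((MM x / 2 : ℕ) : ℤ) := by exact_mod_cast h1
      push_cast at h2
      exact h2
    · split_ifs
      · exact_mod_cast MM_dvd (by omega)
      · exact dvd_zero _
  obtain ⟨z1, hz1⟩ := hdvd1
  refine ⟨∑ x ∈ range j, a x, z1 - (if j ∈ F then 1 else 0), ?_, ?_⟩
  · calc |∑ x ∈ range j, a x| ≤ ∑ x ∈ range j, |a x| := Finset.abs_sum_le_sum_abs _ _
      _ ≤ ∑ x ∈ range j, 2 * (MM x : ℤ) := by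
          apply Finset.sum_le_sum
          intro x _
          simp only [a]
          have h0 : (0 : ℤ) < MM x := by exact_mod_cast MM_pos x
          have h1 : |c x * ((MM x : ℤ) / 2)| ≤ MM x := by
            rw [abs_mul]
            have h2 : |c x| ≤ 1 := by
              rcases hc x with h | h | h <;> rw [h] <;> norm_num
            have h3 : |(MM x : ℤ) / 2| ≤ MM x := by
              rw [abs_of_nonneg (by omega)]
              omega
            calc |c x| * |(MM x : ℤ) / 2| ≤ 1 * (MM x : ℤ) :=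
                  mul_le_mul h2 h3 (abs_nonneg _) (by norm_num)
              _ = MM x := one_mul _
          have h4 : |(if x ∈ F then (MM x : ℤ) else 0)| ≤ MM x := by
            split_ifs
            · rw [abs_of_pos h0]
            · rw [abs_zero]; exact h0.le
          calc |c x * ((MM x : ℤ) / 2) - (if x ∈ F then (MM x : ℤ) else 0)|
              ≤ |c x * ((MM x : ℤ) / 2)| + |(if x ∈ F then (MM x : ℤ) else 0)| := abs_sub _ _
            _ ≤ 2 * (MM x : ℤ) := by linarith
      _ ≤ HH j := by
          rw [← Finset.mul_sum]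
          have h1 := MM_sum_le j
          have h2 : 3 * ∑ i ∈ range j, (MM i : ℤ) ≤ HH j := by exact_mod_cast h1
          have h3 : 0 ≤ ∑ i ∈ range j, (MM i : ℤ) := Finset.sum_nonneg (fun _ _ => by positivity)
          linarith
  · rw [hsum, hsplit, hz1]
    simp only [a]
    split_ifs <;> ring

/-- counting with few common elements -/
theorem count_disj (Bl X : Finset ℕ) (p q : ℕ → Prop) [DecidablePred p] [DecidablePred q]
    (h : ∀ j ∈ Bl, p j → q j → j ∈ X) :
    (Bl.filter p).card + (Bl.filter q).card ≤ Bl.card + X.card := by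
  classical
  rw [← Finset.card_union_add_card_inter]
  apply add_le_add
  · apply Finset.card_le_card
    intro x hx
    rw [Finset.mem_union, Finset.mem_filter, Finset.mem_filter] at hx
    rcases hx with hx | hx <;> exact hx.1
  · apply Finset.card_le_card
    intro x hx
    rw [Finset.mem_inter, Finset.mem_filter, Finset.mem_filter] at hx
    exact h x hx.1.1 hx.1.2 hx.2.2

variable (K t : ℕ → ℕ)

/-- the i-th block of coordinates -/
def blk (i : ℕ) : Finset ℕ := Finset.Ico (K i) (K (i + 1))

/-- many lower coordinates in block i -/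
def PP (n : ℤ) (i : ℕ) : Prop :=
  (blk K i).card + 2 * t i ≤ 2 * ((blk K i).filter (fun j => T0 n j)).card

/-- many upper coordinates in block i -/
def QQ (n : ℤ) (i : ℕ) : Prop :=
  (blk K i).card + 2 * t i ≤ 2 * ((blk K i).filter (fun j => T1 n j)).card

/-- the set A with parity p -/
def AA (p : ℕ) : Set ℤ :=
  {n | 0 ≤ n ∧ (∀ i, PP K t n i ∨ QQ K t n i) ∧ {i | QQ K t n i}.Finite ∧
    {i | QQ K t n i}.ncard % 2 = p}

theorem AA_avoid (hK : Monotone K) (ht : ∀ i, 0 < t i) (p : ℕ) (n n' : ℤ) (hn : n ∈ AA K t p)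
    (hn' : n' ∈ AA K t p) (i : ℕ) (c : ℕ → ℤ) (hc : ∀ j, c j = -1 ∨ c j = 0 ∨ c j = 1)
    (hout : ∀ j, j ∉ blk K i → c j = 0)
    (hfew : ((blk K i).filter (fun j => c j = 0)).card < 2 * t i) (F : Finset ℕ) :
    n' ≠ n + (∑ j ∈ blk K i, c j * ((MM j : ℤ) / 2) - ∑ f ∈ F, (MM f : ℤ)) := by
  classical
  intro heq
  obtain ⟨_, hgood, hfin, hpar⟩ := hn
  obtain ⟨_, hgood', hfin', hpar'⟩ := hn'
  have hsh : ∀ j, (c j = 0 → (T0 n j → ¬ T1 n' j) ∧ (T1 n j → ¬ T0 n' j)) ∧
      (c j ≠ 0 → (T0 n j → ¬ T0 n' j) ∧ (T1 n j → ¬ T1 n' j)) := by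
    intro j
    obtain ⟨e, z, he, hz⟩ := decomp c hc (blk K i) F hout j
    apply shift_types n n' j (c j) (hc j) e z he
    rw [heq, hz]; ring
  -- other blocks
  have hother : ∀ i', i' ≠ i → (QQ K t n i' ↔ QQ K t n' i') := by
    intro i' hi'
    have hc0 : ∀ j ∈ blk K i', c j = 0 := by
      intro j hj
      apply hout
      intro hj2
      unfold blk at hj hj2
      rw [Finset.mem_Ico] at hj hj2
      rcases lt_or_gt_of_ne hi' with h | h
      · have := hK (show i' + 1 ≤ i by omega)
        omega
      · have := hK (show i + 1 ≤ i' by omega)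
        omega
    have h01 := count_disj (blk K i') ∅ (fun j => T0 n j) (fun j => T1 n' j)
      (fun j hj h1 h2 => absurd h2 (((hsh j).1 (hc0 j hj)).1 h1))
    have h10 := count_disj (blk K i') ∅ (fun j => T1 n j) (fun j => T0 n' j)
      (fun j hj h1 h2 => absurd h2 (((hsh j).1 (hc0 j hj)).2 h1))
    rw [Finset.card_empty] at h01 h10
    have htp := ht i'
    unfold QQ
    have g1 := hgood i'
    have g2 := hgood' i'
    unfold PP QQ at g1 g2
    constructor
    · intro h
      rcases g2 with h2 | h2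
      · omega
      · exact h2
    · intro h
      rcases g1 with h2 | h2
      · omega
      · exact h2
  have hsame : ¬ (QQ K t n i ↔ QQ K t n' i) := by
    have h00 := count_disj (blk K i) ((blk K i).filter (fun j => c j = 0)) (fun j => T0 n j)
      (fun j => T0 n' j) (fun j hj h1 h2 => by
        rw [Finset.mem_filter]
        refine ⟨hj, ?_⟩
        by_contra h
        exact ((hsh j).2 h).1 h1 h2)
    have h11 := count_disj (blk K i) ((blk K i).filter (fun j => c j = 0)) (fun j => T1 n j)
      (fun j => T1 n' j) (fun j hj h1 h2 => by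
        rw [Finset.mem_filter]
        refine ⟨hj, ?_⟩
        by_contra h
        exact ((hsh j).2 h).2 h1 h2)
    have g1 := hgood i
    have g2 := hgood' i
    unfold PP QQ at g1 g2
    unfold QQ
    intro hiff
    by_cases h : (blk K i).card + 2 * t i ≤ 2 * ((blk K i).filter (fun j => T1 n j)).card
    · have := hiff.mp h
      omega
    · have h' : ¬ ((blk K i).card + 2 * t i ≤ 2 * ((blk K i).filter (fun j => T1 n' j)).card) :=
        fun h2 => h (hiff.mpr h2)
      rcases g1 with g1 | g1
      · rcases g2 with g2 | g2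
        · omega
        · exact h' g2
      · exact h g1
  -- parity
  by_cases hi : QQ K t n i
  · have hi' : ¬ QQ K t n' i := fun h => hsame ⟨fun _ => h, fun _ => hi⟩
    have hset : {x | QQ K t n x} = insert i {x | QQ K t n' x} := by
      ext x
      simp only [Set.mem_ofPred_eq, Set.mem_insert_iff]
      by_cases hx : x = i
      · subst hx; simp [hi]
      · simp [hx, hother x hx]
    have hcard : {x | QQ K t n x}.ncard = {x | QQ K t n' x}.ncard + 1 := by
      rw [hset]
      exact Set.ncard_insert_of_notMem hi' hfin'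
    omega
  · have hi' : QQ K t n' i := by
      by_contra h
      exact hsame ⟨fun h2 => absurd h2 hi, fun h2 => absurd h2 h⟩
    have hset : {x | QQ K t n' x} = insert i {x | QQ K t n x} := by
      ext x
      simp only [Set.mem_ofPred_eq, Set.mem_insert_iff]
      by_cases hx : x = i
      · subst hx; simp [hi']
      · simp [hx, hother x hx]
    have hcard : {x | QQ K t n' x}.ncard = {x | QQ K t n x}.ncard + 1 := by
      rw [hset]
      exact Set.ncard_insert_of_notMem hi hfin
    omega

end Pool.Agent.R446
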