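import Pool.Agent.R446.IPAvoid

open Finset

namespace Pool.Agent.R446

theorem count_mul_sum (P : ℕ → Prop) [DecidablePred P] (a Q : ℕ) :
    Nat.count P (a * Q) = ∑ q ∈ range Q, Nat.count (fun k => P (a * q + k)) a := by
  induction Q with
  | zero => simp
  | succ Q ih => rw [Nat.mul_succ, Nat.count_add, ih, Finset.sum_range_succ]

/-- the bound for the central binomial coefficient -/
theorem centralBinom_sq_le (n : ℕ) : (Nat.centralBinom n) ^ 2 * (2 * n + 1) ≤ 16 ^ n := by
  induction n with
  | zero => simp
  | succ n ih =>
    have h := Nat.succ_mul_centralBinom_succ n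
    have h1 : (n + 1) ^ 2 * ((Nat.centralBinom (n + 1)) ^ 2 * (2 * (n + 1) + 1))
        ≤ (n + 1) ^ 2 * 16 ^ (n + 1) := by
      calc (n + 1) ^ 2 * ((Nat.centralBinom (n + 1)) ^ 2 * (2 * (n + 1) + 1))
          = ((n + 1) * Nat.centralBinom (n + 1)) ^ 2 * (2 * n + 3) := by ring
        _ = (2 * (2 * n + 1) * Nat.centralBinom n) ^ 2 * (2 * n + 3) := by rw [h]
        _ = 4 * ((2 * n + 1) * (2 * n + 3)) * ((Nat.centralBinom n) ^ 2 * (2 * n + 1)) := by ring
        _ ≤ 4 * ((2 * n + 2) ^ 2) * 16 ^ n := by
            apply Nat.mul_le_mul _ ih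
            apply Nat.mul_le_mul_left
            nlinarith
        _ = (n + 1) ^ 2 * 16 ^ (n + 1) := by ring
    exact Nat.le_of_mul_le_mul_left h1 (by positivity)

/-- existence of a block length -/
theorem exists_length (t w : ℕ) : ∃ k : ℕ, 2 * t ≤ k ∧ 0 < k ∧ 2 * t * k.choose (k / 2) * w ≤ 2 ^ k := by
  set n := (2 * t * w) ^ 2 + t + 1 with hn
  refine ⟨2 * n, by omega, by omega, ?_⟩
  have h := centralBinom_sq_le n
  rw [Nat.mul_div_cancel_left _ (by norm_num : 0 < 2)]
  have hc : (2 * n).choose n = Nat.centralBinom n := rfl
  rw [hc]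
  have h2 : (2 * t * Nat.centralBinom n * w) ^ 2 ≤ (2 ^ (2 * n)) ^ 2 := by
    calc (2 * t * Nat.centralBinom n * w) ^ 2 = (2 * t * w) ^ 2 * (Nat.centralBinom n) ^ 2 := by ring
      _ ≤ (2 * n + 1) * (Nat.centralBinom n) ^ 2 := by
          apply Nat.mul_le_mul_right
          omega
      _ ≤ 16 ^ n := by rw [mul_comm]; exact h
      _ = (2 ^ (2 * n)) ^ 2 := by
          rw [← pow_mul]
          rw [show (16 : ℕ) = 2 ^ 4 by norm_num, ← pow_mul]
          congr 1; ring
  exact (Nat.pow_le_pow_iff_left (by norm_num)).mp h2

/-- interval lengths -/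
def LL : ℕ → ℕ
  | 0 => 1
  | J + 1 => MM J

theorem LL_pos (J : ℕ) : 0 < LL J := by
  cases J
  · simp [LL]
  · exact MM_pos _

theorem LL_dvd_half (J : ℕ) : LL J ∣ MM J / 2 := by
  cases J with
  | zero => simp [LL]
  | succ J => exact MM_dvd_half (by omega)

theorem MM_dvd_LL {j J : ℕ} (h : j < J) : MM j ∣ LL J := by
  cases J with
  | zero => omega
  | succ J => exact MM_dvd (by omega)

theorem LL_le_HH {j J : ℕ} (h : J ≤ j) : LL J ≤ HH j := by
  cases J with
  | zero => simp only [LL]; exact HH_pos j
  | succ J =>
    obtain ⟨j', rfl⟩ : ∃ j', j = j' + 1 := ⟨j - 1, by omega⟩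
    rw [HH_succ]
    simp only [LL]
    have h1 : MM J ≤ MM j' := Nat.le_of_dvd (MM_pos _) (MM_dvd (by omega))
    have h2 := MM_ge j'
    nlinarith

/-- the lower half condition -/
def low (n j : ℕ) : Prop := n % MM j < MM j / 2

instance (n j : ℕ) : Decidable (low n j) := by unfold low; infer_instance

/-- every pattern of lower and upper halves is equally frequent -/
theorem pattern_count (J : ℕ) : ∀ B s : Finset ℕ, B ⊆ range J → s ⊆ B →
    Nat.count (fun n => B.filter (fun j => low n j) = s) (LL J) * 2 ^ B.card = LL J := by
  induction J with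
  | zero =>
    intro B s hB hs
    have hB0 : B = ∅ := by
      rw [Finset.range_zero, Finset.subset_empty] at hB; exact hB
    subst hB0
    have hs0 : s = ∅ := Finset.subset_empty.mp hs
    subst hs0
    simp [LL, Nat.count_succ]
  | succ J ih =>
    intro B s hB hs
    obtain ⟨Q', hQ'⟩ := LL_dvd_half J
    have hM : MM J = LL J * (2 * Q') := by
      have := MM_even J
      rw [← this, hQ']; ring
    have hL0 := LL_pos J
    have hL1 : LL (J + 1) = LL J * (2 * Q') := hM
    rw [hL1, count_mul_sum]
    -- low for small coordinates
    have hlow : ∀ q k j, j < J → (low (LL J * q + k) j ↔ low k j) := by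
      intro q k j hj
      unfold low
      obtain ⟨z, hz⟩ := MM_dvd_LL hj
      rw [hz, mul_assoc, Nat.mul_add_mod]
    have hlowJ : ∀ q k, q < 2 * Q' → k < LL J → (low (LL J * q + k) J ↔ q < Q') := by
      intro q k hq hk
      unfold low
      rw [hQ']
      have h1 : LL J * q + k < MM J := by
        rw [hM]
        calc LL J * q + k < LL J * q + LL J := by omega
          _ = LL J * (q + 1) := by ring
          _ ≤ LL J * (2 * Q') := Nat.mul_le_mul_left _ (by omega)
      rw [Nat.mod_eq_of_lt h1]
      constructor
      · intro h
        by_contra hc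
        push Not at hc
        have := Nat.mul_le_mul_left (LL J) hc
        omega
      · intro h
        calc LL J * q + k < LL J * q + LL J := by omega
          _ = LL J * (q + 1) := by ring
          _ ≤ LL J * Q' := Nat.mul_le_mul_left _ (by omega)
    by_cases hJB : J ∈ B
    · set B' := B.erase J with hB'
      set s' := s.erase J with hs'
      have hB'r : B' ⊆ range J := by
        intro x hx
        rw [hB', Finset.mem_erase] at hx
        have := Finset.mem_range.mp (hB hx.2)
        rw [Finset.mem_range]
        omega
      have hs'B : s' ⊆ B' := Finset.erase_subset_erase _ hs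
      have hc := ih B' s' hB'r hs'B
      have hterm : ∀ q ∈ range (2 * Q'),
          Nat.count (fun k => B.filter (fun j => low (LL J * q + k) j) = s) (LL J)
          = if (q < Q' ↔ J ∈ s) then
            Nat.count (fun n => B'.filter (fun j => low n j) = s') (LL J) else 0 := by
        intro q hq
        rw [Finset.mem_range] at hq
        have hiff : ∀ k, k < LL J → ((B.filter (fun j => low (LL J * q + k) j) = s) ↔
            ((q < Q' ↔ J ∈ s) ∧ B'.filter (fun j => low k j) = s')) := by
          intro k hk
          constructor
          · intro h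
            constructor
            · rw [← hlowJ q k hq hk, ← h, Finset.mem_filter]
              exact ⟨fun h2 => ⟨hJB, h2⟩, fun h2 => h2.2⟩
            · rw [hs', ← h, hB']
              ext x
              simp only [Finset.mem_filter, Finset.mem_erase]
              constructor
              · rintro ⟨⟨hx1, hx2⟩, hx3⟩
                have := Finset.mem_range.mp (hB hx2)
                exact ⟨hx1, hx2, (hlow q k x (by omega)).mpr hx3⟩
              · rintro ⟨hx1, hx2, hx3⟩
                have := Finset.mem_range.mp (hB hx2)
                exact ⟨⟨hx1, hx2⟩, (hlow q k x (by omega)).mp hx3⟩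
          · rintro ⟨h1, h2⟩
            ext x
            rw [Finset.mem_filter]
            by_cases hx : x = J
            · subst hx
              rw [hlowJ q k hq hk, h1]
              exact ⟨fun h => h.2, fun h => ⟨hJB, h⟩⟩
            · have h3 : x ∈ s ↔ x ∈ s' := by rw [hs', Finset.mem_erase]; simp [hx]
              rw [h3, ← h2, hB', Finset.mem_filter, Finset.mem_erase]
              constructor
              · rintro ⟨hx1, hx2⟩
                have := Finset.mem_range.mp (hB hx1)
                exact ⟨⟨hx, hx1⟩, (hlow q k x (by omega)).mp hx2⟩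
              · rintro ⟨⟨_, hx1⟩, hx2⟩
                have := Finset.mem_range.mp (hB hx1)
                exact ⟨hx1, (hlow q k x (by omega)).mpr hx2⟩
        split_ifs with hcase
        · rw [Nat.count_eq_card_filter_range, Nat.count_eq_card_filter_range]
          congr 1
          apply Finset.filter_congr
          intro k hk
          rw [hiff k (Finset.mem_range.mp hk)]
          simp [hcase]
        · rw [Nat.count_eq_card_filter_range, Finset.card_eq_zero, Finset.filter_eq_empty_iff]
          intro k hk
          rw [hiff k (Finset.mem_range.mp hk)]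
          simp [hcase]
      rw [Finset.sum_congr rfl hterm, ← Finset.sum_filter, Finset.sum_const, smul_eq_mul]
      have hcardq : ((range (2 * Q')).filter (fun q => (q < Q' ↔ J ∈ s))).card = Q' := by
        by_cases hJs : J ∈ s
        · have : (range (2 * Q')).filter (fun q => (q < Q' ↔ J ∈ s)) = range Q' := by
            ext q
            simp only [Finset.mem_filter, Finset.mem_range, hJs, iff_true]
            omega
          rw [this, Finset.card_range]
        · have : (range (2 * Q')).filter (fun q => (q < Q' ↔ J ∈ s)) = Finset.Ico Q' (2 * Q') := by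
            ext q
            simp only [Finset.mem_filter, Finset.mem_range, hJs, iff_false, Finset.mem_Ico]
            omega
          rw [this, Nat.card_Ico]
          omega
      rw [hcardq]
      have hBcard : B.card = B'.card + 1 := by
        rw [hB', Finset.card_erase_of_mem hJB]
        have : 0 < B.card := Finset.card_pos.mpr ⟨J, hJB⟩
        omega
      rw [hBcard, pow_succ]
      calc Q' * Nat.count (fun n => B'.filter (fun j => low n j) = s') (LL J) *
            (2 ^ B'.card * 2)
          = 2 * Q' * (Nat.count (fun n => B'.filter (fun j => low n j) = s') (LL J) *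
            2 ^ B'.card) := by ring
        _ = LL J * (2 * Q') := by rw [hc]; ring
    · have hBr : B ⊆ range J := by
        intro x hx
        have h1 := Finset.mem_range.mp (hB hx)
        have h2 : x ≠ J := fun h => hJB (h ▸ hx)
        rw [Finset.mem_range]
        omega
      have hc := ih B s hBr hs
      have hterm : ∀ q ∈ range (2 * Q'),
          Nat.count (fun k => B.filter (fun j => low (LL J * q + k) j) = s) (LL J)
          = Nat.count (fun n => B.filter (fun j => low n j) = s) (LL J) := by
        intro q _
        rw [Nat.count_eq_card_filter_range, Nat.count_eq_card_filter_range]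
        congr 1
        apply Finset.filter_congr
        intro k _
        have : B.filter (fun j => low (LL J * q + k) j) = B.filter (fun j => low k j) := by
          apply Finset.filter_congr
          intro x hx
          exact hlow q k x (Finset.mem_range.mp (hBr hx))
        rw [this]
      rw [Finset.sum_congr rfl hterm, Finset.sum_const, Finset.card_range, smul_eq_mul]
      calc 2 * Q' * Nat.count (fun n => B.filter (fun j => low n j) = s) (LL J) * 2 ^ B.card
          = 2 * Q' * (Nat.count (fun n => B.filter (fun j => low n j) = s) (LL J) *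
            2 ^ B.card) := by ring
        _ = LL J * (2 * Q') := by rw [hc]; ring

/-- few subsets are balanced -/
theorem card_balanced (B : Finset ℕ) (t : ℕ) :
    (B.powerset.filter (fun s => B.card < 2 * s.card + 2 * t ∧ 2 * s.card < B.card + 2 * t)).card
      ≤ 2 * t * B.card.choose (B.card / 2) := by
  classical
  set k := B.card with hk
  set W := (range (k + 1)).filter (fun w => k < 2 * w + 2 * t ∧ 2 * w < k + 2 * t) with hW
  have hWcard : W.card ≤ 2 * t := by
    have : W ⊆ Finset.Ico ((k + 2) / 2 - t) ((k + 2) / 2 - t + 2 * t) := by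
      intro w hw
      rw [hW, Finset.mem_filter, Finset.mem_range] at hw
      rw [Finset.mem_Ico]
      omega
    refine le_trans (Finset.card_le_card this) ?_
    rw [Nat.card_Ico]
    omega
  have hmaps : ∀ s ∈ B.powerset.filter
      (fun s => k < 2 * s.card + 2 * t ∧ 2 * s.card < k + 2 * t), s.card ∈ W := by
    intro s hs
    rw [Finset.mem_filter, Finset.mem_powerset] at hs
    rw [hW, Finset.mem_filter, Finset.mem_range]
    exact ⟨Nat.lt_succ_of_le (Finset.card_le_card hs.1), hs.2⟩
  rw [Finset.card_eq_sum_card_fiberwise hmaps]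
  calc ∑ w ∈ W, ((B.powerset.filter
        (fun s => k < 2 * s.card + 2 * t ∧ 2 * s.card < k + 2 * t)).filter
          (fun s => s.card = w)).card
      ≤ ∑ w ∈ W, k.choose (k / 2) := by
        apply Finset.sum_le_sum
        intro w _
        have h1 : ((B.powerset.filter
          (fun s => k < 2 * s.card + 2 * t ∧ 2 * s.card < k + 2 * t)).filter
            (fun s => s.card = w)) ⊆ B.powersetCard w := by
          intro s hs
          rw [Finset.mem_filter, Finset.mem_filter, Finset.mem_powerset] at hs
          rw [Finset.mem_powersetCard]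
          exact ⟨hs.1.1, hs.2⟩
        refine le_trans (Finset.card_le_card h1) ?_
        rw [Finset.card_powersetCard]
        exact Nat.choose_le_middle _ _
    _ ≤ 2 * t * k.choose (k / 2) := by
        rw [Finset.sum_const, smul_eq_mul]
        exact Nat.mul_le_mul_right _ hWcard

/-- few n are balanced in a block -/
theorem count_balanced (J : ℕ) (B : Finset ℕ) (hB : B ⊆ range J) (t : ℕ) :
    Nat.count (fun n => B.card < 2 * (B.filter (fun j => low n j)).card + 2 * t ∧
      2 * (B.filter (fun j => low n j)).card < B.card + 2 * t) (LL J) * 2 ^ B.card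
      ≤ 2 * t * B.card.choose (B.card / 2) * LL J := by
  classical
  have h1 : Nat.count (fun n => B.card < 2 * (B.filter (fun j => low n j)).card + 2 * t ∧
      2 * (B.filter (fun j => low n j)).card < B.card + 2 * t) (LL J)
      ≤ ∑ s ∈ B.powerset.filter
        (fun s => B.card < 2 * s.card + 2 * t ∧ 2 * s.card < B.card + 2 * t),
        Nat.count (fun n => B.filter (fun j => low n j) = s) (LL J) := by
    rw [Nat.count_eq_card_filter_range]
    have hmaps : ∀ n ∈ (range (LL J)).filter (fun n => B.card <
        2 * (B.filter (fun j => low n j)).card + 2 * t ∧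
        2 * (B.filter (fun j => low n j)).card < B.card + 2 * t),
        B.filter (fun j => low n j) ∈ B.powerset.filter
        (fun s => B.card < 2 * s.card + 2 * t ∧ 2 * s.card < B.card + 2 * t) := by
      intro n hn
      rw [Finset.mem_filter] at hn ⊢
      exact ⟨Finset.mem_powerset.mpr (Finset.filter_subset _ _), hn.2⟩
    rw [Finset.card_eq_sum_card_fiberwise hmaps]
    apply Finset.sum_le_sum
    intro s _
    rw [Nat.count_eq_card_filter_range]
    apply Finset.card_le_card
    intro n hn
    rw [Finset.mem_filter, Finset.mem_filter] at hn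
    rw [Finset.mem_filter]
    exact ⟨hn.1.1, hn.2⟩
  calc _ ≤ (∑ s ∈ B.powerset.filter
        (fun s => B.card < 2 * s.card + 2 * t ∧ 2 * s.card < B.card + 2 * t),
        Nat.count (fun n => B.filter (fun j => low n j) = s) (LL J)) * 2 ^ B.card :=
        Nat.mul_le_mul_right _ h1
    _ = ∑ s ∈ B.powerset.filter
        (fun s => B.card < 2 * s.card + 2 * t ∧ 2 * s.card < B.card + 2 * t), LL J := by
        rw [Finset.sum_mul]
        apply Finset.sum_congr rfl
        intro s hs
        rw [Finset.mem_filter, Finset.mem_powerset] at hs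
        exact pattern_count J B s hB hs.1
    _ ≤ 2 * t * B.card.choose (B.card / 2) * LL J := by
        rw [Finset.sum_const, smul_eq_mul]
        exact Nat.mul_le_mul_right _ (card_balanced B t)

/-- few n have a bad coordinate j -/
theorem count_bad (J j : ℕ) (hj : j < J) :
    Nat.count (fun n => ¬ T0 n j ∧ ¬ T1 n j) (LL J) * HH j ≤ 2 * LL J := by
  classical
  obtain ⟨Q, hQ⟩ := MM_dvd_LL hj
  have hH := HH_lt j
  have hM := MM_even j
  have hMpos := MM_pos j
  rw [hQ, count_mul_sum]
  have hterm : ∀ q ∈ range Q,
      Nat.count (fun k => ¬ T0 ((MM j * q + k : ℕ) : ℤ) j ∧ ¬ T1 ((MM j * q + k : ℕ) : ℤ) j) (MM j)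
      ≤ 2 * HH j := by
    intro q _
    rw [Nat.count_eq_card_filter_range]
    have hsub : (range (MM j)).filter
        (fun k => ¬ T0 ((MM j * q + k : ℕ) : ℤ) j ∧ ¬ T1 ((MM j * q + k : ℕ) : ℤ) j) ⊆
        Finset.Ico (MM j / 2 - HH j) (MM j / 2) ∪ Finset.Ico (MM j - HH j) (MM j) := by
      intro k hk
      rw [Finset.mem_filter, Finset.mem_range] at hk
      obtain ⟨hk1, hk2, hk3⟩ := hk
      have hmod : ((MM j * q + k : ℕ) : ℤ) % (MM j : ℤ) = k := by
        have : (MM j * q + k) % MM j = k := by
          rw [Nat.mul_add_mod, Nat.mod_eq_of_lt hk1]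
        exact_mod_cast this
      unfold T0 at hk2
      unfold T1 at hk3
      rw [hmod] at hk2 hk3
      rw [Finset.mem_union, Finset.mem_Ico, Finset.mem_Ico]
      omega
    refine le_trans (Finset.card_le_card hsub) ?_
    refine le_trans (Finset.card_union_le _ _) ?_
    rw [Nat.card_Ico, Nat.card_Ico]
    omega
  calc (∑ q ∈ range Q, Nat.count
        (fun k => ¬ T0 ((MM j * q + k : ℕ) : ℤ) j ∧ ¬ T1 ((MM j * q + k : ℕ) : ℤ) j) (MM j)) * HH j
      ≤ (∑ q ∈ range Q, 2 * HH j) * HH j :=
        Nat.mul_le_mul_right _ (Finset.sum_le_sum hterm)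
    _ = 2 * (MM j * Q) := by
        rw [Finset.sum_const, Finset.card_range, smul_eq_mul]
        unfold MM
        ring

end Pool.Agent.R446
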