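import Pool.Agent.R446.IPCount

open Finset

namespace Pool.Agent.R446

/-- cell numbers -/
def cellN (i : ℕ) : ℕ := 10 * (i + 1) ^ 2

/-- thresholds -/
def thr (i : ℕ) : ℕ := cellN i ^ i + 2 * i

theorem thr_pos (i : ℕ) : 0 < thr i := by
  unfold thr cellN
  positivity

/-- block lengths -/
noncomputable def kk (i : ℕ) : ℕ := (exists_length (thr i) (2 ^ (i + 4))).choose

theorem kk_spec (i : ℕ) : 2 * thr i ≤ kk i ∧ 0 < kk i ∧
    2 * thr i * (kk i).choose (kk i / 2) * 2 ^ (i + 4) ≤ 2 ^ kk i :=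
  (exists_length (thr i) (2 ^ (i + 4))).choose_spec

/-- block starts -/
noncomputable def KK (i : ℕ) : ℕ := ∑ x ∈ range i, kk x

theorem KK_succ (i : ℕ) : KK (i + 1) = KK i + kk i := by
  unfold KK
  rw [Finset.sum_range_succ]

theorem KK_mono : Monotone KK := monotone_nat_of_le_succ (fun i => by rw [KK_succ]; omega)

theorem KK_ge (i : ℕ) : i ≤ KK i := by
  induction i with
  | zero => simp
  | succ i ih =>
    rw [KK_succ]
    have := (kk_spec i).2.1
    omega

theorem blk_card (i : ℕ) : (blk KK i).card = kk i := by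
  unfold blk
  rw [Nat.card_Ico, KK_succ]
  omega

theorem T1_not_T0 (n : ℤ) (j : ℕ) (h : T1 n j) : ¬ T0 n j := by
  unfold T1 at h
  unfold T0
  omega

/-- far coordinates of small n are lower -/
theorem T0_of_small (n J j : ℕ) (hn : n < LL J) (hj : J ≤ j) : T0 (n : ℤ) j := by
  unfold T0
  have h1 := LL_le_HH hj
  have h2 := HH_lt j
  have h3 := MM_even j
  have h4 : n % MM j = n := Nat.mod_eq_of_lt (by omega)
  have h5 : (n : ℤ) % (MM j : ℤ) = n := by exact_mod_cast h4
  rw [h5]
  omega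

theorem PP_of_small (n I i : ℕ) (hn : n < LL (KK I)) (hi : I ≤ i) : PP KK thr n i := by
  unfold PP
  have h1 : (blk KK i).filter (fun j => T0 (n : ℤ) j) = blk KK i := by
    rw [Finset.filter_true_of_mem]
    intro j hj
    unfold blk at hj
    rw [Finset.mem_Ico] at hj
    exact T0_of_small n (KK I) j hn (le_trans (KK_mono hi) hj.1)
  rw [h1, blk_card]
  have := (kk_spec i).1
  omega

theorem not_QQ_of_small (n I i : ℕ) (hn : n < LL (KK I)) (hi : I ≤ i) : ¬ QQ KK thr n i := by
  unfold QQ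
  have h1 : (blk KK i).filter (fun j => T1 (n : ℤ) j) = ∅ := by
    rw [Finset.filter_eq_empty_iff]
    intro j hj h
    unfold blk at hj
    rw [Finset.mem_Ico] at hj
    exact T1_not_T0 n j h (T0_of_small n (KK I) j hn (le_trans (KK_mono hi) hj.1))
  rw [h1, Finset.card_empty]
  have := thr_pos i
  omega

/-- in a block without bad coordinates a non-good n is balanced -/
theorem balanced_of_not_good (n i : ℕ) (hbad : ∀ j ∈ blk KK i, T0 (n : ℤ) j ∨ T1 (n : ℤ) j)
    (h : ¬ (PP KK thr n i ∨ QQ KK thr n i)) :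
    (blk KK i).card < 2 * ((blk KK i).filter (fun j => low n j)).card + 2 * thr i ∧
      2 * ((blk KK i).filter (fun j => low n j)).card < (blk KK i).card + 2 * thr i := by
  have hlow : ∀ j, low n j ↔ (n : ℤ) % (MM j : ℤ) < (MM j : ℤ) / 2 := by
    intro j
    unfold low
    constructor
    · intro h; exact_mod_cast h
    · intro h; exact_mod_cast h
  have h0 : (blk KK i).filter (fun j => T0 (n : ℤ) j) = (blk KK i).filter (fun j => low n j) := by
    apply Finset.filter_congr
    intro j hj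
    rw [hlow]
    constructor
    · intro h; unfold T0 at h; omega
    · intro h
      rcases hbad j hj with h2 | h2
      · exact h2
      · unfold T1 at h2; omega
  have h1 : (blk KK i).filter (fun j => T1 (n : ℤ) j)
      = (blk KK i).filter (fun j => ¬ low n j) := by
    apply Finset.filter_congr
    intro j hj
    rw [hlow]
    constructor
    · intro h; unfold T1 at h; omega
    · intro h
      rcases hbad j hj with h2 | h2
      · unfold T0 at h2; omega
      · exact h2
  have h2 := Finset.card_filter_add_card_filter_not (s := blk KK i) (fun j => low n j)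
  unfold PP QQ at h
  rw [h0, h1] at h
  push Not at h
  omega

open Classical in
/-- at least half of the n are good -/
theorem good_count (I : ℕ) :
    ((LL (KK I) : ℕ) : ℝ) / 2 ≤ (((range (LL (KK I))).filter
      (fun n : ℕ => ∀ i, PP KK thr (n : ℤ) i ∨ QQ KK thr (n : ℤ) i)).card : ℝ) := by
  classical
  set J := KK I with hJ
  set L := LL J with hL
  have hsub : (range L).filter (fun n : ℕ => ¬ ∀ i, PP KK thr (n : ℤ) i ∨ QQ KK thr (n : ℤ) i) ⊆
      ((range J).biUnion (fun j => (range L).filter (fun n : ℕ => ¬ T0 (n : ℤ) j ∧ ¬ T1 (n : ℤ) j))) ∪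
      ((range I).biUnion (fun i => (range L).filter (fun n : ℕ =>
        (blk KK i).card < 2 * ((blk KK i).filter (fun j => low n j)).card + 2 * thr i ∧
        2 * ((blk KK i).filter (fun j => low n j)).card < (blk KK i).card + 2 * thr i))) := by
    intro n hn
    rw [Finset.mem_filter, Finset.mem_range] at hn
    obtain ⟨hn1, hn2⟩ := hn
    push Not at hn2
    obtain ⟨i, hi1, hi2⟩ := hn2
    have hiI : i < I := by
      by_contra h
      push Not at h
      exact hi1 (PP_of_small n I i hn1 h)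
    rw [Finset.mem_union, Finset.mem_biUnion, Finset.mem_biUnion]
    by_cases hbad : ∀ j ∈ blk KK i, T0 (n : ℤ) j ∨ T1 (n : ℤ) j
    · right
      refine ⟨i, Finset.mem_range.mpr hiI, ?_⟩
      rw [Finset.mem_filter, Finset.mem_range]
      exact ⟨hn1, balanced_of_not_good n i hbad (fun h => h.elim hi1 hi2)⟩
    · left
      push Not at hbad
      obtain ⟨j, hj, hj0, hj1⟩ := hbad
      refine ⟨j, ?_, ?_⟩
      · unfold blk at hj
        rw [Finset.mem_Ico] at hj
        rw [Finset.mem_range]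
        exact lt_of_lt_of_le hj.2 (KK_mono (by omega))
      · rw [Finset.mem_filter, Finset.mem_range]
        exact ⟨hn1, hj0, hj1⟩
  have hLpos : (0 : ℝ) < L := by
    have := LL_pos J
    exact_mod_cast this
  have hbadj : ∀ j ∈ range J, (((range L).filter
      (fun n : ℕ => ¬ T0 (n : ℤ) j ∧ ¬ T1 (n : ℤ) j)).card : ℝ) ≤ L * (1 / 2) ^ (j + 7) := by
    intro j hj
    have h1 := count_bad J j (Finset.mem_range.mp hj)
    rw [Nat.count_eq_card_filter_range] at h1
    have h2 : 2 ^ (8 + j) ≤ HH j := by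
      unfold HH
      apply Nat.pow_le_pow_right (by norm_num)
      have : j + 1 ≤ 4 ^ j := by
        have : j < 4 ^ j := Nat.lt_pow_self (by norm_num)
        omega
      omega
    have h3 : ((range L).filter (fun n : ℕ => ¬ T0 (n : ℤ) j ∧ ¬ T1 (n : ℤ) j)).card * 2 ^ (8 + j)
        ≤ 2 * L := le_trans (Nat.mul_le_mul_left _ h2) h1
    have h4 : (((range L).filter (fun n : ℕ => ¬ T0 (n : ℤ) j ∧ ¬ T1 (n : ℤ) j)).card : ℝ)
        * 2 ^ (8 + j) ≤ 2 * L := by exact_mod_cast h3
    have h5 : (2 : ℝ) ^ (8 + j) = 2 * 2 ^ (j + 7) := by ring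
    rw [h5] at h4
    rw [one_div, inv_pow, ← div_eq_mul_inv, le_div_iff₀ (by positivity)]
    linarith
  have hbal : ∀ i ∈ range I, (((range L).filter (fun n : ℕ =>
        (blk KK i).card < 2 * ((blk KK i).filter (fun j => low n j)).card + 2 * thr i ∧
        2 * ((blk KK i).filter (fun j => low n j)).card < (blk KK i).card + 2 * thr i)).card : ℝ)
        ≤ L * (1 / 2) ^ (i + 4) := by
    intro i hi
    rw [Finset.mem_range] at hi
    have hB : blk KK i ⊆ range J := by
      intro j hj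
      unfold blk at hj
      rw [Finset.mem_Ico] at hj
      rw [Finset.mem_range]
      exact lt_of_lt_of_le hj.2 (KK_mono (by omega))
    have h1 := count_balanced J (blk KK i) hB (thr i)
    rw [Nat.count_eq_card_filter_range, blk_card] at h1
    rw [blk_card]
    set Cn := ((range L).filter (fun n : ℕ =>
        kk i < 2 * ((blk KK i).filter (fun j => low n j)).card + 2 * thr i ∧
        2 * ((blk KK i).filter (fun j => low n j)).card < kk i + 2 * thr i)).card with hCn
    have h2 := (kk_spec i).2.2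
    have h3 : Cn * 2 ^ (i + 4) * 2 ^ kk i ≤ L * 2 ^ kk i := by
      calc Cn * 2 ^ (i + 4) * 2 ^ kk i = (Cn * 2 ^ kk i) * 2 ^ (i + 4) := by ring
        _ ≤ (2 * thr i * (kk i).choose (kk i / 2) * L) * 2 ^ (i + 4) := Nat.mul_le_mul_right _ h1
        _ = L * (2 * thr i * (kk i).choose (kk i / 2) * 2 ^ (i + 4)) := by ring
        _ ≤ L * 2 ^ kk i := Nat.mul_le_mul_left _ h2
    have h4 : Cn * 2 ^ (i + 4) ≤ L := Nat.le_of_mul_le_mul_right h3 (by positivity)
    have h5 : (Cn : ℝ) * 2 ^ (i + 4) ≤ L := by exact_mod_cast h4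
    rw [one_div, inv_pow, ← div_eq_mul_inv, le_div_iff₀ (by positivity)]
    exact h5
  have hsum1 : ∀ J : ℕ, ∑ j ∈ range J, (1 / 2 : ℝ) ^ (j + 7) ≤ 1 / 64 := by
    intro J
    have : ∑ j ∈ range J, (1 / 2 : ℝ) ^ (j + 7) = 1 / 64 - (1 / 2) ^ (J + 6) := by
      induction J with
      | zero => norm_num
      | succ J ih => rw [Finset.sum_range_succ, ih]; ring
    rw [this]
    have : (0 : ℝ) ≤ (1 / 2) ^ (J + 6) := by positivity
    linarith
  have hsum2 : ∀ J : ℕ, ∑ j ∈ range J, (1 / 2 : ℝ) ^ (j + 4) ≤ 1 / 8 := by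
    intro J
    have : ∑ j ∈ range J, (1 / 2 : ℝ) ^ (j + 4) = 1 / 8 - (1 / 2) ^ (J + 3) := by
      induction J with
      | zero => norm_num
      | succ J ih => rw [Finset.sum_range_succ, ih]; ring
    rw [this]
    have : (0 : ℝ) ≤ (1 / 2) ^ (J + 3) := by positivity
    linarith
  have hnot : (((range L).filter (fun n : ℕ => ¬ ∀ i, PP KK thr (n : ℤ) i ∨
      QQ KK thr (n : ℤ) i)).card : ℝ) ≤ L / 2 := by
    have e1 : ((range L).filter (fun n : ℕ => ¬ ∀ i, PP KK thr (n : ℤ) i ∨
      QQ KK thr (n : ℤ) i)).card ≤ ∑ j ∈ range J, ((range L).filter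
        (fun n : ℕ => ¬ T0 (n : ℤ) j ∧ ¬ T1 (n : ℤ) j)).card + ∑ i ∈ range I,
        ((range L).filter (fun n : ℕ =>
        (blk KK i).card < 2 * ((blk KK i).filter (fun j => low n j)).card + 2 * thr i ∧
        2 * ((blk KK i).filter (fun j => low n j)).card < (blk KK i).card + 2 * thr i)).card := by
      refine le_trans (Finset.card_le_card hsub) ?_
      refine le_trans (Finset.card_union_le _ _) ?_
      exact add_le_add Finset.card_biUnion_le Finset.card_biUnion_le
    have e2 : (((range L).filter (fun n : ℕ => ¬ ∀ i, PP KK thr (n : ℤ) i ∨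
      QQ KK thr (n : ℤ) i)).card : ℝ) ≤ ∑ j ∈ range J, (((range L).filter
        (fun n : ℕ => ¬ T0 (n : ℤ) j ∧ ¬ T1 (n : ℤ) j)).card : ℝ) + ∑ i ∈ range I,
        (((range L).filter (fun n : ℕ =>
        (blk KK i).card < 2 * ((blk KK i).filter (fun j => low n j)).card + 2 * thr i ∧
        2 * ((blk KK i).filter (fun j => low n j)).card < (blk KK i).card + 2 * thr i)).card : ℝ) := by
      exact_mod_cast e1
    have e3 := Finset.sum_le_sum hbadj
    have e4 := Finset.sum_le_sum hbal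
    rw [← Finset.mul_sum] at e3 e4
    have e5 := mul_le_mul_of_nonneg_left (hsum1 J) hLpos.le
    have e6 := mul_le_mul_of_nonneg_left (hsum2 I) hLpos.le
    linarith
  have htot := Finset.card_filter_add_card_filter_not (s := range L)
    (fun n : ℕ => ∀ i, PP KK thr (n : ℤ) i ∨ QQ KK thr (n : ℤ) i)
  rw [Finset.card_range] at htot
  have htot' : (((range L).filter (fun n : ℕ => ∀ i, PP KK thr (n : ℤ) i ∨
      QQ KK thr (n : ℤ) i)).card : ℝ) + (((range L).filter (fun n : ℕ => ¬ ∀ i, PP KK thr (n : ℤ) i ∨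
      QQ KK thr (n : ℤ) i)).card : ℝ) = L := by exact_mod_cast htot
  linarith

/-- good n lie in one of the two sets -/
theorem good_mem (I n : ℕ) (hn : n < LL (KK I))
    (h : ∀ i, PP KK thr (n : ℤ) i ∨ QQ KK thr (n : ℤ) i) :
    (n : ℤ) ∈ AA KK thr 0 ∨ (n : ℤ) ∈ AA KK thr 1 := by
  have hfin : {i | QQ KK thr (n : ℤ) i}.Finite := by
    apply Set.Finite.subset (Set.finite_lt_nat I)
    intro i hi
    simp only [Set.mem_ofPred_eq] at hi ⊢
    by_contra hc
    push Not at hc
    exact not_QQ_of_small n I i hn hc hi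
  rcases Nat.mod_two_eq_zero_or_one ({i | QQ KK thr (n : ℤ) i}.ncard) with h2 | h2
  · left; exact ⟨by positivity, h, hfin, h2⟩
  · right; exact ⟨by positivity, h, hfin, h2⟩

/-- one of the two sets has at least a quarter of the elements of infinitely many initial
intervals -/
theorem exists_parity : ∃ p : ℕ, ∀ I₀ : ℕ, ∃ I : ℕ, I₀ ≤ I ∧
    ((LL (KK I) : ℕ) : ℝ) / 4 ≤
      ((AA KK thr p ∩ Set.Ioc (-1 : ℤ) (-1 + (LL (KK I) : ℕ))).ncard : ℝ) := by
  classical
  have key : ∀ I, ∃ p, p < 2 ∧ ((LL (KK I) : ℕ) : ℝ) / 4 ≤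
      ((AA KK thr p ∩ Set.Ioc (-1 : ℤ) (-1 + (LL (KK I) : ℕ))).ncard : ℝ) := by
    intro I
    have h := good_count I
    set L := LL (KK I) with hL
    have hfinI : (Set.Ioc (-1 : ℤ) (-1 + (L : ℕ))).Finite := Set.finite_Ioc _ _
    have hle : ((range L).filter
        (fun n : ℕ => ∀ i, PP KK thr (n : ℤ) i ∨ QQ KK thr (n : ℤ) i)).card ≤
        (AA KK thr 0 ∩ Set.Ioc (-1 : ℤ) (-1 + (L : ℕ))).ncard +
        (AA KK thr 1 ∩ Set.Ioc (-1 : ℤ) (-1 + (L : ℕ))).ncard := by
      have h1 : (((range L).filter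
        (fun n : ℕ => ∀ i, PP KK thr (n : ℤ) i ∨ QQ KK thr (n : ℤ) i)).image
        (fun n : ℕ => (n : ℤ))).card = ((range L).filter
        (fun n : ℕ => ∀ i, PP KK thr (n : ℤ) i ∨ QQ KK thr (n : ℤ) i)).card :=
        Finset.card_image_of_injective _ Nat.cast_injective
      rw [← h1, ← Set.ncard_coe_finset]
      refine le_trans (Set.ncard_le_ncard (t := (AA KK thr 0 ∩ Set.Ioc (-1 : ℤ) (-1 + (L : ℕ))) ∪
        (AA KK thr 1 ∩ Set.Ioc (-1 : ℤ) (-1 + (L : ℕ)))) ?_
        ((hfinI.inter_of_right _).union (hfinI.inter_of_right _))) (Set.ncard_union_le _ _)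
      intro x hx
      rw [Finset.mem_coe, Finset.mem_image] at hx
      obtain ⟨n, hn, rfl⟩ := hx
      rw [Finset.mem_filter, Finset.mem_range] at hn
      have hI : (n : ℤ) ∈ Set.Ioc (-1 : ℤ) (-1 + (L : ℕ)) := by
        rw [Set.mem_Ioc]
        have := hn.1
        omega
      rcases good_mem I n hn.1 hn.2 with h2 | h2
      · left; exact ⟨h2, hI⟩
      · right; exact ⟨h2, hI⟩
    have hle' : (((range L).filter
        (fun n : ℕ => ∀ i, PP KK thr (n : ℤ) i ∨ QQ KK thr (n : ℤ) i)).card : ℝ) ≤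
        ((AA KK thr 0 ∩ Set.Ioc (-1 : ℤ) (-1 + (L : ℕ))).ncard : ℝ) +
        ((AA KK thr 1 ∩ Set.Ioc (-1 : ℤ) (-1 + (L : ℕ))).ncard : ℝ) := by exact_mod_cast hle
    by_contra hcon
    push Not at hcon
    have h0 := hcon 0 (by norm_num)
    have h1 := hcon 1 (by norm_num)
    linarith
  by_contra hcon
  push Not at hcon
  obtain ⟨I0, hI0⟩ := hcon 0
  obtain ⟨I1, hI1⟩ := hcon 1
  obtain ⟨p, hp, h⟩ := key (max I0 I1)
  interval_cases p
  · exact absurd h (not_le.mpr (hI0 _ (le_max_left _ _)))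
  · exact absurd h (not_le.mpr (hI1 _ (le_max_right _ _)))

/-- the signed sums of half moduli of a block meet every Bohr set -/
theorem bohr_meets (k : ℕ) (α : Fin k → ℝ) (η : ℝ) (hη : 0 < η) :
    ∃ (i : ℕ) (c : ℕ → ℤ), (∀ j, c j = -1 ∨ c j = 0 ∨ c j = 1) ∧
      (∀ j, j ∉ blk KK i → c j = 0) ∧
      ((blk KK i).filter (fun j => c j = 0)).card < 2 * thr i ∧
      ∀ l, ‖Complex.exp (2 * Real.pi * Complex.I * α l *
        ((∑ j ∈ blk KK i, c j * ((MM j : ℤ) / 2) : ℤ) : ℂ)) - 1‖ < η := by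
  obtain ⟨i0, hi0⟩ := exists_nat_one_div_lt hη
  set i := max k i0 with hi
  have hik : k ≤ i := le_max_left _ _
  have hiη : 1 / ((i : ℝ) + 1) < η := by
    refine lt_of_le_of_lt ?_ hi0
    apply one_div_le_one_div_of_le (by positivity)
    have : (i0 : ℝ) ≤ i := by exact_mod_cast le_max_right k i0
    linarith
  let α' : Fin i → ℝ := fun l => if h : (l : ℕ) < k then α ⟨l, h⟩ else 0
  have hN : 0 < cellN i := by unfold cellN; positivity
  obtain ⟨c, hc1, hc2, hc3, hc4⟩ := signed_sum hN (blk KK i)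
    (fun j l => ((((MM j : ℤ) / 2 : ℤ)) : ℝ) * α' l)
  refine ⟨i, c, hc1, hc2, ?_, ?_⟩
  · refine lt_of_le_of_lt hc3 ?_
    have := thr_pos i
    unfold thr at this ⊢
    omega
  · intro l
    have hlk : (l : ℕ) < k := l.2
    obtain ⟨z, hz⟩ := hc4 ⟨l, by omega⟩
    have hα : α' ⟨l, by omega⟩ = α l := by
      simp only [α']
      rw [dif_pos hlk]
    rw [hα] at hz
    set r : ℤ := ∑ j ∈ blk KK i, c j * ((MM j : ℤ) / 2) with hr
    have hsum : ∑ j ∈ blk KK i, (c j : ℝ) * (((((MM j : ℤ) / 2 : ℤ)) : ℝ) * α l) = α l * r := by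
      rw [hr]
      push_cast
      rw [Finset.mul_sum]
      apply Finset.sum_congr rfl
      intro j _
      ring
    rw [hsum] at hz
    have hexp : Complex.exp (2 * Real.pi * Complex.I * α l * (r : ℂ))
        = Complex.exp (Complex.I * ((2 * Real.pi * (α l * r - z) : ℝ) : ℂ)) := by
      have e1 : (2 * Real.pi * Complex.I * α l * (r : ℂ) : ℂ)
          = Complex.I * ((2 * Real.pi * (α l * r - z) : ℝ) : ℂ) + z * (2 * Real.pi * Complex.I) := by
        push_cast
        ring
      rw [e1, Complex.exp_add, Complex.exp_int_mul_two_pi_mul_I, mul_one]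
    rw [hexp]
    refine lt_of_le_of_lt (Real.norm_exp_I_mul_ofReal_sub_one_le) ?_
    rw [Real.norm_eq_abs, abs_mul, abs_of_pos (by positivity : (0 : ℝ) < 2 * Real.pi)]
    have hpi := Real.pi_lt_d2
    have hbound : (i : ℝ) / (cellN i : ℝ) ≤ 1 / 10 * (1 / ((i : ℝ) + 1)) := by
      unfold cellN
      push_cast
      rw [div_le_iff₀ (by positivity)]
      have : 1 / 10 * (1 / ((i : ℝ) + 1)) * (10 * ((i : ℝ) + 1) ^ 2) = i + 1 := by
        field_simp
      rw [this]
      linarith
    calc 2 * Real.pi * |α l * r - z| ≤ 2 * Real.pi * (1 / 10 * (1 / ((i : ℝ) + 1))) := by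
          apply mul_le_mul_of_nonneg_left _ (by positivity)
          exact le_trans hz hbound
      _ ≤ 1 * (1 / ((i : ℝ) + 1)) := by
          rw [← mul_assoc]
          apply mul_le_mul_of_nonneg_right _ (by positivity)
          linarith
      _ < η := by rw [one_mul]; exact hiη

end Pool.Agent.R446
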