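import Pool.Agent.R446.Balance

open Finset

namespace Pool.Agent.R446

/-- half widths: H j = 2^(8 * 4^j) -/
def HH (j : ℕ) : ℕ := 2 ^ (8 * 4 ^ j)

/-- moduli: M j = (H j)^2 = 2^(4^(j+2)) -/
def MM (j : ℕ) : ℕ := HH j ^ 2

theorem MM_eq (j : ℕ) : MM j = 2 ^ (4 ^ (j + 2)) := by
  unfold MM HH
  rw [← pow_mul]
  congr 1
  ring

theorem HH_succ (j : ℕ) : HH (j + 1) = MM j ^ 2 := by
  unfold MM HH
  rw [← pow_mul, ← pow_mul]
  congr 1
  ring

theorem HH_pos (j : ℕ) : 0 < HH j := by unfold HH; positivity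

theorem MM_pos (j : ℕ) : 0 < MM j := by unfold MM; have := HH_pos j; positivity

theorem HH_ge (j : ℕ) : 256 ≤ HH j := by
  unfold HH
  calc 256 = 2 ^ (8 * 4 ^ 0) := by norm_num
    _ ≤ 2 ^ (8 * 4 ^ j) := by
      apply Nat.pow_le_pow_right (by norm_num)
      apply Nat.mul_le_mul_left
      exact Nat.pow_le_pow_right (by norm_num) (Nat.zero_le _)

theorem MM_ge (j : ℕ) : 65536 ≤ MM j := by
  unfold MM
  have := HH_ge j
  nlinarith

theorem MM_dvd_succ (j : ℕ) : 2 * MM j ∣ MM (j + 1) := by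
  rw [MM_eq, MM_eq, ← pow_succ']
  apply pow_dvd_pow
  have : 4 ^ (j + 1 + 2) = 4 * 4 ^ (j + 2) := by ring
  rw [this]
  have : 0 < 4 ^ (j + 2) := by positivity
  omega

theorem MM_dvd {i j : ℕ} (h : i ≤ j) : MM i ∣ MM j := by
  induction j, h using Nat.le_induction with
  | base => exact dvd_rfl
  | succ j _ ih => exact dvd_trans ih (dvd_trans (Dvd.intro_left 2 rfl) (MM_dvd_succ j))

theorem MM_dvd_half {i j : ℕ} (h : i < j) : MM i ∣ MM j / 2 := by
  obtain ⟨j', rfl⟩ : ∃ j', j = j' + 1 := ⟨j - 1, by omega⟩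
  have h1 : MM i ∣ MM j' := MM_dvd (by omega)
  obtain ⟨q, hq⟩ := MM_dvd_succ j'
  have h2 : MM (j' + 1) / 2 = MM j' * q := by
    rw [hq, mul_assoc, Nat.mul_div_cancel_left _ (by norm_num)]
  rw [h2]
  exact dvd_mul_of_dvd_left h1 _

theorem MM_even (j : ℕ) : 2 * (MM j / 2) = MM j := by
  apply Nat.mul_div_cancel'
  rw [MM_eq]
  apply dvd_pow_self
  positivity

/-- sum of the smaller moduli -/
theorem MM_sum (j : ℕ) : ∑ i ∈ range (j + 1), MM i ≤ 2 * MM j := by
  induction j with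
  | zero => simp; omega
  | succ j ih =>
    rw [Finset.sum_range_succ]
    have : 2 * MM j ≤ MM (j + 1) := Nat.le_of_dvd (MM_pos _) (MM_dvd_succ j)
    omega

/-- three times the sum of the smaller moduli is at most the half width -/
theorem MM_sum_le (j : ℕ) : 3 * ∑ i ∈ range j, MM i ≤ HH j := by
  rcases j with _ | j
  · simp
  · have h1 := MM_sum j
    rw [HH_succ]
    have h2 := MM_ge j
    nlinarith

theorem HH_lt (j : ℕ) : 4 * HH j ≤ MM j := by
  unfold MM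
  have := HH_ge j
  nlinarith

/-- residue of n in the lower part -/
def T0 (n : ℤ) (j : ℕ) : Prop := n % (MM j : ℤ) + HH j < MM j / 2

/-- residue of n in the upper part -/
def T1 (n : ℤ) (j : ℕ) : Prop := (MM j : ℤ) / 2 ≤ n % (MM j : ℤ) ∧ n % (MM j : ℤ) + HH j < MM j

instance (n : ℤ) (j : ℕ) : Decidable (T0 n j) := by unfold T0; infer_instance
instance (n : ℤ) (j : ℕ) : Decidable (T1 n j) := by unfold T1; infer_instance

/-- general shift lemma for residues -/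
theorem shift_aux (M H u u' e K : ℤ) (hM : 0 < M) (h2 : M = 2 * K) (hH : 4 * H ≤ M)
    (hu0 : 0 ≤ u) (hu : u < M) (hu'0 : 0 ≤ u') (hu' : u' < M) (he : |e| ≤ H) (c : ℤ)
    (hc : c = -1 ∨ c = 0 ∨ c = 1) (q : ℤ) (hq : u' = u + c * K + e + M * q) :
    (c = 0 → (u + H < K → ¬ (K ≤ u' ∧ u' + H < M)) ∧ ((K ≤ u ∧ u + H < M) → ¬ (u' + H < K))) ∧
    (c ≠ 0 → (u + H < K → ¬ (u' + H < K)) ∧ ((K ≤ u ∧ u + H < M) → ¬ (K ≤ u' ∧ u' + H < M))) := by
  have he1 := (abs_le.mp he).1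
  have he2 := (abs_le.mp he).2
  have hK : 0 < K := by linarith
  have hcK1 : -K ≤ c * K := by rcases hc with rfl | rfl | rfl <;> linarith
  have hcK2 : c * K ≤ K := by rcases hc with rfl | rfl | rfl <;> linarith
  have hq1 : -3 < q := by
    by_contra h
    push Not at h
    nlinarith
  have hq2 : q < 3 := by
    by_contra h
    push Not at h
    nlinarith
  have hq3 : q = -2 ∨ q = -1 ∨ q = 0 ∨ q = 1 ∨ q = 2 := by omega
  constructor
  · intro hc0
    subst hc0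
    constructor
    · rintro h1 ⟨h3, h4⟩
      rcases hq3 with rfl | rfl | rfl | rfl | rfl <;> linarith
    · rintro ⟨h3, h4⟩ h1
      rcases hq3 with rfl | rfl | rfl | rfl | rfl <;> linarith
  · intro hc0
    rcases hc with rfl | rfl | rfl
    · constructor
      · intro h1 h3
        rcases hq3 with rfl | rfl | rfl | rfl | rfl <;> linarith
      · rintro ⟨h3, h4⟩ ⟨h1, h5⟩
        rcases hq3 with rfl | rfl | rfl | rfl | rfl <;> linarith
    · exact absurd rfl hc0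
    · constructor
      · intro h1 h3
        rcases hq3 with rfl | rfl | rfl | rfl | rfl <;> linarith
      · rintro ⟨h3, h4⟩ ⟨h1, h5⟩
        rcases hq3 with rfl | rfl | rfl | rfl | rfl <;> linarith

/-- shift lemma for the types -/
theorem shift_types (n n' : ℤ) (j : ℕ) (c : ℤ) (hc : c = -1 ∨ c = 0 ∨ c = 1) (e z : ℤ)
    (he : |e| ≤ HH j) (h : n' = n + c * ((MM j : ℤ) / 2) + e + MM j * z) :
    (c = 0 → (T0 n j → ¬ T1 n' j) ∧ (T1 n j → ¬ T0 n' j)) ∧
    (c ≠ 0 → (T0 n j → ¬ T0 n' j) ∧ (T1 n j → ¬ T1 n' j)) := by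
  have hM : (0 : ℤ) < MM j := by exact_mod_cast MM_pos j
  have h2 : (MM j : ℤ) = 2 * ((MM j : ℤ) / 2) := by
    have := MM_even j
    omega
  have hH : 4 * (HH j : ℤ) ≤ MM j := by exact_mod_cast HH_lt j
  have hq : n' % (MM j : ℤ) = n % (MM j : ℤ) + c * ((MM j : ℤ) / 2) + e +
      MM j * (z + n / (MM j : ℤ) - n' / (MM j : ℤ)) := by
    have e1 := Int.emod_add_mul_ediv n (MM j : ℤ)
    have e2 := Int.emod_add_mul_ediv n' (MM j : ℤ)
    have e3 : n' % (MM j : ℤ) = n' - MM j * (n' / (MM j : ℤ)) := by linarith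
    have e4 : n % (MM j : ℤ) = n - MM j * (n / (MM j : ℤ)) := by linarith
    rw [e3, e4]
    linear_combination h
  unfold T0 T1
  exact shift_aux (MM j) (HH j) (n % (MM j : ℤ)) (n' % (MM j : ℤ)) e ((MM j : ℤ) / 2) hM h2
    hH (Int.emod_nonneg _ hM.ne') (Int.emod_lt_of_pos _ hM)
    (Int.emod_nonneg _ hM.ne') (Int.emod_lt_of_pos _ hM) he c hc _ hq

end Pool.Agent.R446
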