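import Pool.Agent.R446.Renewal

open Finset

namespace Pool.Agent.R446

/-- the linearly decreasing kernel k, k-1, ..., 1 placed at a, evaluated at w -/
def ker (k w a : ℕ) : ℝ := if a ≤ w then ((k - (w - a) : ℕ) : ℝ) else 0

/-- autocorrelation of the linearly decreasing kernel -/
def cor (k d : ℕ) : ℝ := ∑ i ∈ range k, ((k - i : ℕ) : ℝ) * ((k - (i + d) : ℕ) : ℝ)

theorem cor_nonneg (k d : ℕ) : 0 ≤ cor k d := by
  unfold cor
  positivity

theorem ker_nonneg (k w a : ℕ) : 0 ≤ ker k w a := by
  unfold ker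
  split_ifs <;> positivity

theorem ker_gram_le (k N a b : ℕ) (hab : a ≤ b) (hb : b < N) :
    ∑ w ∈ range (N + k), ker k w a * ker k w b = cor k (b - a) := by
  have h1 : ∑ w ∈ Finset.Ico b (b + k), ker k w a * ker k w b
      = ∑ w ∈ range (N + k), ker k w a * ker k w b := by
    apply Finset.sum_subset
    · intro i hi
      rw [Finset.mem_Ico] at hi
      rw [Finset.mem_range]
      omega
    · intro i _ hi2
      rw [Finset.mem_Ico] at hi2
      unfold ker
      by_cases h : b ≤ i
      · have : k - (i - b) = 0 := by omega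
        rw [this]; simp
      · rw [if_neg h, mul_zero]
  rw [← h1, Finset.sum_Ico_eq_sum_range]
  unfold cor
  rw [show b + k - b = k by omega]
  apply Finset.sum_congr rfl
  intro i _
  unfold ker
  rw [if_pos (by omega), if_pos (by omega), mul_comm]
  rw [show b + i - b = i by omega, show b + i - a = i + (b - a) by omega]

theorem ker_gram (k N a b : ℕ) (ha : a < N) (hb : b < N) :
    ∑ w ∈ range (N + k), ker k w a * ker k w b = cor k ((a - b) + (b - a)) := by
  rcases le_total a b with h | h
  · rw [ker_gram_le k N a b h hb]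
    rw [show (a - b) + (b - a) = b - a by omega]
  · have := ker_gram_le k N b a h ha
    rw [show (a - b) + (b - a) = a - b by omega, ← this]
    apply Finset.sum_congr rfl
    intro w _
    ring

theorem cor_zero (k : ℕ) : cor k 0 = k * (k + 1) * (2 * k + 1) / 6 := by
  unfold cor
  simp only [Nat.add_zero]
  induction k with
  | zero => simp
  | succ k ih =>
    rw [Finset.sum_range_succ']
    simp only [Nat.add_sub_add_right, Nat.sub_zero]
    rw [ih]; push_cast; ring

theorem sum_cube (k : ℕ) : ∑ i ∈ range k, ((k - i : ℕ) : ℝ) ^ 3 = (k * (k + 1) / 2) ^ 2 := by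
  induction k with
  | zero => simp
  | succ k ih =>
    rw [Finset.sum_range_succ']
    simp only [Nat.add_sub_add_right, Nat.sub_zero]
    rw [ih]; push_cast; ring

theorem tri_le (m N : ℕ) : ∑ d ∈ range N, ((m - (d + 1) : ℕ) : ℝ) ≤ m * (m - 1) / 2 := by
  induction m generalizing N with
  | zero => simp
  | succ m ih =>
    rcases N with _ | N
    · simp; positivity
    · rw [Finset.sum_range_succ']
      simp only [Nat.add_sub_add_right, Nat.zero_add]
      have := ih N
      push_cast
      linarith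

theorem sum_cor_le (k N : ℕ) :
    2 * ∑ d ∈ range N, cor k (d + 1) ≤ (k * (k + 1) / 2) ^ 2 - cor k 0 := by
  have h1 : ∑ d ∈ range N, cor k (d + 1)
      ≤ ∑ i ∈ range k, ((k - i : ℕ) : ℝ) * (((k - i : ℕ) : ℝ) * (((k - i : ℕ) : ℝ) - 1) / 2) := by
    unfold cor
    rw [Finset.sum_comm]
    apply Finset.sum_le_sum
    intro i _
    rw [← Finset.mul_sum]
    apply mul_le_mul_of_nonneg_left _ (Nat.cast_nonneg _)
    have := tri_le (k - i) N
    refine le_trans (le_of_eq ?_) this
    apply Finset.sum_congr rfl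
    intro d _
    rw [show k - (i + (d + 1)) = k - i - (d + 1) by omega]
  have h2 : 2 * ∑ i ∈ range k, ((k - i : ℕ) : ℝ) * (((k - i : ℕ) : ℝ) * (((k - i : ℕ) : ℝ) - 1) / 2)
      = (k * (k + 1) / 2) ^ 2 - cor k 0 := by
    rw [← sum_cube]
    unfold cor
    rw [← Finset.sum_sub_distrib, Finset.mul_sum]
    apply Finset.sum_congr rfl
    intro i _
    rw [Nat.add_zero]
    ring
  linarith

/-- the energy of a set in which every positive difference occurs at most g times -/
theorem energy_le (A : Finset ℕ) (k g N : ℕ) (hA : ∀ a ∈ A, a < N)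
    (hg : ∀ d, 0 < d → ((A ×ˢ A).filter (fun p => p.1 + d = p.2)).card ≤ g) :
    ∑ a ∈ A, ∑ b ∈ A, cor k ((a - b) + (b - a))
      ≤ A.card * cor k 0 + g * ((k * (k + 1) / 2) ^ 2 - cor k 0) := by
  rw [← Finset.sum_product']
  have hmap : ∀ p ∈ A ×ˢ A, (p.1 - p.2) + (p.2 - p.1) ∈ range (N + 1) := by
    intro p hp
    rw [Finset.mem_product] at hp
    have h1 := hA _ hp.1
    have h2 := hA _ hp.2
    rw [Finset.mem_range]
    omega
  rw [← Finset.sum_fiberwise_of_maps_to hmap]
  rw [Finset.sum_range_succ']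
  have h0 : ∑ p ∈ A ×ˢ A with (p.1 - p.2) + (p.2 - p.1) = 0, cor k ((p.1 - p.2) + (p.2 - p.1))
      ≤ A.card * cor k 0 := by
    have e1 : ∑ p ∈ A ×ˢ A with (p.1 - p.2) + (p.2 - p.1) = 0, cor k ((p.1 - p.2) + (p.2 - p.1))
        = ∑ p ∈ A ×ˢ A with (p.1 - p.2) + (p.2 - p.1) = 0, cor k 0 := by
      apply Finset.sum_congr rfl
      intro p hp
      rw [Finset.mem_filter] at hp
      rw [hp.2]
    rw [e1, Finset.sum_const, nsmul_eq_mul]
    apply mul_le_mul_of_nonneg_right _ (cor_nonneg _ _)
    have : ((A ×ˢ A).filter (fun p => (p.1 - p.2) + (p.2 - p.1) = 0)).card ≤ A.card := by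
      apply Finset.card_le_card_of_injOn Prod.fst
      · intro p hp
        rw [Finset.mem_coe, Finset.mem_filter, Finset.mem_product] at hp
        exact hp.1.1
      · intro p hp q hq he
        rw [Finset.mem_coe, Finset.mem_filter] at hp hq
        have h1 := hp.2
        have h2 := hq.2
        ext
        · exact he
        · omega
    exact_mod_cast this
  have hpos : ∑ d ∈ range N, ∑ p ∈ A ×ˢ A with (p.1 - p.2) + (p.2 - p.1) = d + 1,
        cor k ((p.1 - p.2) + (p.2 - p.1))
      ≤ ∑ d ∈ range N, (2 * g : ℝ) * cor k (d + 1) := by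
    apply Finset.sum_le_sum
    intro d _
    have e1 : ∑ p ∈ A ×ˢ A with (p.1 - p.2) + (p.2 - p.1) = d + 1,
          cor k ((p.1 - p.2) + (p.2 - p.1))
        = ∑ p ∈ A ×ˢ A with (p.1 - p.2) + (p.2 - p.1) = d + 1, cor k (d + 1) := by
      apply Finset.sum_congr rfl
      intro p hp
      rw [Finset.mem_filter] at hp
      rw [hp.2]
    rw [e1, Finset.sum_const, nsmul_eq_mul]
    apply mul_le_mul_of_nonneg_right _ (cor_nonneg _ _)
    have h2 : ((A ×ˢ A).filter (fun p => (p.1 - p.2) + (p.2 - p.1) = d + 1)).card ≤ g + g := by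
      have hsub : (A ×ˢ A).filter (fun p => (p.1 - p.2) + (p.2 - p.1) = d + 1) ⊆
          (A ×ˢ A).filter (fun p => p.1 + (d + 1) = p.2) ∪
          ((A ×ˢ A).filter (fun p => p.1 + (d + 1) = p.2)).image Prod.swap := by
        intro p hp
        rw [Finset.mem_filter, Finset.mem_product] at hp
        rw [Finset.mem_union]
        rcases Nat.lt_or_ge p.1 p.2 with h | h
        · left
          rw [Finset.mem_filter, Finset.mem_product]
          exact ⟨hp.1, by omega⟩
        · right
          rw [Finset.mem_image]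
          refine ⟨(p.2, p.1), ?_, rfl⟩
          rw [Finset.mem_filter, Finset.mem_product]
          exact ⟨⟨hp.1.2, hp.1.1⟩, by simp only; omega⟩
      calc _ ≤ _ := Finset.card_le_card hsub
        _ ≤ _ := Finset.card_union_le _ _
        _ ≤ g + g := by
          apply add_le_add (hg (d + 1) (by omega))
          exact le_trans Finset.card_image_le (hg (d + 1) (by omega))
    have h3 : (((A ×ˢ A).filter (fun p => (p.1 - p.2) + (p.2 - p.1) = d + 1)).card : ℝ)
        ≤ ((g + g : ℕ) : ℝ) := by exact_mod_cast h2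
    push_cast at h3
    linarith
  have hs := sum_cor_le k N
  rw [← Finset.mul_sum] at hpos
  have hgr : (0 : ℝ) ≤ g := Nat.cast_nonneg _
  nlinarith [mul_le_mul_of_nonneg_left hs hgr]

end Pool.Agent.R446
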