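import Mathlib

/-!
# A set of integers with large Sidon subsets of all its finite subsets, not a finite union of Sidon sets

For `a < b < c` put `v a b c = w a b + w b c - w a c` with `w i j = 8 ^ pair i j`.
-/

set_option autoImplicit false

namespace Pool.Agent.R446.Pisier

open Multiset

/-- sums of fewer than eight powers of eight determine the multiset of exponents -/
theorem key : ∀ (n : ℕ) (M N : Multiset ℕ), Multiset.card M ≤ n → Multiset.card M < 8 →
    Multiset.card N < 8 → (M.map (fun x => 8 ^ x)).sum = (N.map (fun x => 8 ^ x)).sum → M = N := by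
  intro n
  induction n with
  | zero =>
    intro M N hM _ _ h
    have hM0 : M = 0 := Multiset.card_eq_zero.1 (by omega)
    subst hM0
    by_contra hne
    obtain ⟨x, hx⟩ := Multiset.exists_mem_of_ne_zero (fun h0 => hne h0.symm)
    have := Multiset.single_le_sum (s := N.map (fun x => 8 ^ x)) (by simp) (8 ^ x)
      (Multiset.mem_map_of_mem _ hx)
    rw [← h] at this
    have hp : 0 < 8 ^ x := by positivity
    simp at this
  | succ n ih =>
    intro M N hM hM8 hN8 h
    by_cases hM0 : M = 0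
    · subst hM0
      by_contra hne
      obtain ⟨x, hx⟩ := Multiset.exists_mem_of_ne_zero (fun h0 => hne h0.symm)
      have := Multiset.single_le_sum (s := N.map (fun x => 8 ^ x)) (by simp) (8 ^ x)
        (Multiset.mem_map_of_mem _ hx)
      rw [← h] at this
      have hp : 0 < 8 ^ x := by positivity
      simp at this
    · -- the maximal element of M + N
      have hne : (M + N).toFinset.Nonempty := by
        obtain ⟨x, hx⟩ := Multiset.exists_mem_of_ne_zero hM0
        exact ⟨x, by simp [hx]⟩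
      obtain ⟨m, hm, hmax⟩ := Finset.exists_max_image (M + N).toFinset id hne
      simp only [Multiset.mem_toFinset, Multiset.mem_add, id] at hm hmax
      have bound : ∀ K L : Multiset ℕ, (∀ x ∈ L, x < m) → m ∈ K → Multiset.card L < 8 →
          (L.map (fun x => 8 ^ x)).sum < (K.map (fun x => 8 ^ x)).sum := by
        intro K L hL hK hL8
        have h1 : 8 ^ m ≤ (K.map (fun x => 8 ^ x)).sum :=
          Multiset.single_le_sum (s := K.map (fun x => 8 ^ x)) (by simp) (8 ^ m)
            (Multiset.mem_map_of_mem _ hK)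
        refine lt_of_lt_of_le ?_ h1
        rcases Nat.eq_zero_or_pos m with h0 | hpos
        · have : L = 0 := by
            by_contra hL0
            obtain ⟨x, hx⟩ := Multiset.exists_mem_of_ne_zero hL0
            have := hL x hx
            omega
          subst this
          simp
        · have h2 : (L.map (fun x => 8 ^ x)).sum ≤ Multiset.card (L.map (fun x => 8 ^ x)) •
              8 ^ (m - 1) := by
            apply Multiset.sum_le_card_nsmul
            intro y hy
            rw [Multiset.mem_map] at hy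
            obtain ⟨x, hx, rfl⟩ := hy
            have := hL x hx
            exact Nat.pow_le_pow_right (by norm_num) (by omega)
          rw [Multiset.card_map, smul_eq_mul] at h2
          have h3 : 8 ^ m = 8 * 8 ^ (m - 1) := by
            rw [← pow_succ']
            congr 1
            omega
          have h4 : 0 < 8 ^ (m - 1) := by positivity
          nlinarith
      have hmM : m ∈ M := by
        by_contra hmM
        have hmN : m ∈ N := hm.resolve_left hmM
        have := bound N M (fun x hx => lt_of_le_of_ne (hmax x (Or.inl hx))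
          (fun e => hmM (e ▸ hx))) hmN hM8
        omega
      have hmN : m ∈ N := by
        by_contra hmN
        have := bound M N (fun x hx => lt_of_le_of_ne (hmax x (Or.inr hx))
          (fun e => hmN (e ▸ hx))) hmM hN8
        omega
      obtain ⟨M', rfl⟩ := Multiset.exists_cons_of_mem hmM
      obtain ⟨N', rfl⟩ := Multiset.exists_cons_of_mem hmN
      simp only [Multiset.card_cons, Multiset.map_cons, Multiset.sum_cons] at *
      rw [ih M' N' (by omega) (by omega) (by omega) (by omega)]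

/-- the weight of a pair -/
def w (i j : ℕ) : ℕ := 8 ^ Nat.pair i j

/-- the weight of a triple -/
def v (a b c : ℕ) : ℕ := w a b + w b c - w a c

theorem w_lt {a b c : ℕ} (hab : a < b) (hbc : b < c) : w a c < w b c := by
  unfold w
  apply Nat.pow_lt_pow_right (by norm_num)
  exact Nat.pair_lt_pair_left _ hab

theorem v_add {a b c : ℕ} (hab : a < b) (hbc : b < c) : v a b c + w a c = w a b + w b c := by
  have := w_lt hab hbc
  unfold v
  omega

/-- code of a pair -/
abbrev P (i j : ℕ) : ℕ := Nat.pair i j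

theorem P_inj {a b c d : ℕ} (h : P a b = P c d) : a = c ∧ b = d := by
  have := Nat.pair_eq_pair.1 h
  exact this

/-- if `v e₁ + v e₂ = v e₃ + v e₄` then the codes of pairs agree as multisets -/
theorem multiset_of_eq {a₁ b₁ c₁ a₂ b₂ c₂ a₃ b₃ c₃ a₄ b₄ c₄ : ℕ}
    (h₁ : a₁ < b₁ ∧ b₁ < c₁) (h₂ : a₂ < b₂ ∧ b₂ < c₂) (h₃ : a₃ < b₃ ∧ b₃ < c₃)
    (h₄ : a₄ < b₄ ∧ b₄ < c₄) (h : v a₁ b₁ c₁ + v a₂ b₂ c₂ = v a₃ b₃ c₃ + v a₄ b₄ c₄) :
    ({P a₁ b₁, P b₁ c₁, P a₂ b₂, P b₂ c₂, P a₃ c₃, P a₄ c₄} : Multiset ℕ) =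
      {P a₃ b₃, P b₃ c₃, P a₄ b₄, P b₄ c₄, P a₁ c₁, P a₂ c₂} := by
  have e1 := v_add h₁.1 h₁.2
  have e2 := v_add h₂.1 h₂.2
  have e3 := v_add h₃.1 h₃.2
  have e4 := v_add h₄.1 h₄.2
  apply key 6
  · simp
  · simp
  · simp
  · simp only [Multiset.insert_eq_cons, Multiset.map_cons, Multiset.sum_cons,
      Multiset.map_singleton, Multiset.sum_singleton]
    change w a₁ b₁ + (w b₁ c₁ + (w a₂ b₂ + (w b₂ c₂ + (w a₃ c₃ + w a₄ c₄)))) =
      w a₃ b₃ + (w b₃ c₃ + (w a₄ b₄ + (w b₄ c₄ + (w a₁ c₁ + w a₂ c₂))))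
    omega

/-- `v` is injective on increasing triples -/
theorem v_inj {a₁ b₁ c₁ a₂ b₂ c₂ : ℕ} (h₁ : a₁ < b₁ ∧ b₁ < c₁) (h₂ : a₂ < b₂ ∧ b₂ < c₂)
    (h : v a₁ b₁ c₁ = v a₂ b₂ c₂) : a₁ = a₂ ∧ b₁ = b₂ ∧ c₁ = c₂ := by
  have e1 := v_add h₁.1 h₁.2
  have e2 := v_add h₂.1 h₂.2
  have hk : ({P a₁ b₁, P b₁ c₁, P a₂ c₂} : Multiset ℕ) = {P a₂ b₂, P b₂ c₂, P a₁ c₁} := by
    apply key 3
    · simp
    · simp
    · simp
    · simp only [Multiset.insert_eq_cons, Multiset.map_cons, Multiset.sum_cons,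
        Multiset.map_singleton, Multiset.sum_singleton]
      change w a₁ b₁ + (w b₁ c₁ + w a₂ c₂) = w a₂ b₂ + (w b₂ c₂ + w a₁ c₁)
      omega
  have m1 : P a₁ b₁ ∈ ({P a₂ b₂, P b₂ c₂, P a₁ c₁} : Multiset ℕ) := by rw [← hk]; simp
  have m2 : P b₁ c₁ ∈ ({P a₂ b₂, P b₂ c₂, P a₁ c₁} : Multiset ℕ) := by rw [← hk]; simp
  have m3 : P a₂ b₂ ∈ ({P a₁ b₁, P b₁ c₁, P a₂ c₂} : Multiset ℕ) := by rw [hk]; simp
  have m4 : P b₂ c₂ ∈ ({P a₁ b₁, P b₁ c₁, P a₂ c₂} : Multiset ℕ) := by rw [hk]; simp
  simp only [Multiset.insert_eq_cons, Multiset.mem_cons, Multiset.mem_singleton] at m1 m2 m3 m4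
  obtain ⟨h1a, h1b⟩ := h₁
  obtain ⟨h2a, h2b⟩ := h₂
  rcases m1 with m1 | m1 | m1 <;> rcases m2 with m2 | m2 | m2 <;>
    rcases m3 with m3 | m3 | m3 <;> rcases m4 with m4 | m4 | m4 <;>
    have n1 := P_inj m1 <;> have n2 := P_inj m2 <;> have n3 := P_inj m3 <;>
    have n4 := P_inj m4 <;> omega

end Pool.Agent.R446.Pisier
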