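import Mathlib
import Pool.Agent.R446.Pisier

set_option autoImplicit false

namespace Pool.Agent.R446.Pisier

open Multiset

/-- membership in a six-element multiset -/
theorem mem6 {x x1 x2 x3 x4 x5 x6 : ℕ} :
    x ∈ ({x1, x2, x3, x4, x5, x6} : Multiset ℕ) ↔
      x = x1 ∨ x = x2 ∨ x = x3 ∨ x = x4 ∨ x = x5 ∨ x = x6 := by
  simp [Multiset.insert_eq_cons]

/-- Sidon property for triples whose entries have the types `0, 1, 2` -/
theorem sidon_typed (τ : ℕ → Fin 3) {a₁ b₁ c₁ a₂ b₂ c₂ a₃ b₃ c₃ a₄ b₄ c₄ : ℕ}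
    (h₁ : a₁ < b₁ ∧ b₁ < c₁) (h₂ : a₂ < b₂ ∧ b₂ < c₂) (h₃ : a₃ < b₃ ∧ b₃ < c₃)
    (h₄ : a₄ < b₄ ∧ b₄ < c₄)
    (t₁ : τ a₁ = 0 ∧ τ b₁ = 1 ∧ τ c₁ = 2) (t₂ : τ a₂ = 0 ∧ τ b₂ = 1 ∧ τ c₂ = 2)
    (t₃ : τ a₃ = 0 ∧ τ b₃ = 1 ∧ τ c₃ = 2) (t₄ : τ a₄ = 0 ∧ τ b₄ = 1 ∧ τ c₄ = 2)
    (h : v a₁ b₁ c₁ + v a₂ b₂ c₂ = v a₃ b₃ c₃ + v a₄ b₄ c₄) :
    (v a₁ b₁ c₁ = v a₃ b₃ c₃ ∧ v a₂ b₂ c₂ = v a₄ b₄ c₄) ∨
      (v a₁ b₁ c₁ = v a₄ b₄ c₄ ∧ v a₂ b₂ c₂ = v a₃ b₃ c₃) := by
  -- it is enough to find `e₁ ∈ {e₃, e₄}`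
  suffices hs : (a₁ = a₃ ∧ b₁ = b₃ ∧ c₁ = c₃) ∨ (a₁ = a₄ ∧ b₁ = b₄ ∧ c₁ = c₄) by
    rcases hs with ⟨rfl, rfl, rfl⟩ | ⟨rfl, rfl, rfl⟩
    · left
      exact ⟨rfl, by omega⟩
    · right
      exact ⟨rfl, by omega⟩
  have hm := multiset_of_eq h₁ h₂ h₃ h₄ h
  have key2 : ∀ x y : ℕ, P x y ∈ ({P a₁ b₁, P b₁ c₁, P a₂ b₂, P b₂ c₂, P a₃ c₃, P a₄ c₄} :
      Multiset ℕ) ↔ P x y ∈ ({P a₃ b₃, P b₃ c₃, P a₄ b₄, P b₄ c₄, P a₁ c₁, P a₂ c₂} :
      Multiset ℕ) := by
    intro x y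
    rw [hm]
  -- types of pairs
  have q1 : (a₁ = a₃ ∧ b₁ = b₃) ∨ (a₁ = a₄ ∧ b₁ = b₄) := by
    have := (key2 a₁ b₁).1 (by rw [mem6]; tauto)
    rw [mem6] at this
    rcases this with m | m | m | m | m | m <;> have n := P_inj m
    · exact Or.inl n
    · have := t₁.1; rw [n.1, t₃.2.1] at this; simp at this
    · exact Or.inr n
    · have := t₁.1; rw [n.1, t₄.2.1] at this; simp at this
    · have := t₁.2.1; rw [n.2, t₁.2.2] at this; simp at this
    · have := t₁.2.1; rw [n.2, t₂.2.2] at this; simp at this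
  have q2 : (b₁ = b₃ ∧ c₁ = c₃) ∨ (b₁ = b₄ ∧ c₁ = c₄) := by
    have := (key2 b₁ c₁).1 (by rw [mem6]; tauto)
    rw [mem6] at this
    rcases this with m | m | m | m | m | m <;> have n := P_inj m
    · have := t₁.2.1; rw [n.1, t₃.1] at this; simp at this
    · exact Or.inl n
    · have := t₁.2.1; rw [n.1, t₄.1] at this; simp at this
    · exact Or.inr n
    · have := t₁.2.1; rw [n.1, t₁.1] at this; simp at this
    · have := t₁.2.1; rw [n.1, t₂.1] at this; simp at this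
  have q3 : (a₁ = a₃ ∧ c₁ = c₃) ∨ (a₁ = a₄ ∧ c₁ = c₄) := by
    have := (key2 a₁ c₁).2 (by rw [mem6]; tauto)
    rw [mem6] at this
    rcases this with m | m | m | m | m | m <;> have n := P_inj m
    · have := t₁.2.2; rw [n.2, t₁.2.1] at this; simp at this
    · have := t₁.1; rw [n.1, t₁.2.1] at this; simp at this
    · have := t₁.2.2; rw [n.2, t₂.2.1] at this; simp at this
    · have := t₁.1; rw [n.1, t₂.2.1] at this; simp at this
    · exact Or.inl n
    · exact Or.inr n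
  omega


/-- among all typings of `Fin M` one gives the types `0, 1, 2` to at least `1/27` of the triples -/
theorem exists_typing (M : ℕ) {ι : Type*} (A : Finset ι) (a b c : ι → Fin M)
    (hab : ∀ x ∈ A, a x ≠ b x) (hac : ∀ x ∈ A, a x ≠ c x) (hbc : ∀ x ∈ A, b x ≠ c x) :
    ∃ τ : Fin M → Fin 3,
      A.card ≤ 27 * (A.filter (fun x => τ (a x) = 0 ∧ τ (b x) = 1 ∧ τ (c x) = 2)).card := by
  classical
  by_contra hcon
  push Not at hcon
  -- each triple is good for at least 1/27 of the typings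
  have good : ∀ x ∈ A, Fintype.card (Fin M → Fin 3) ≤ 27 * (Finset.univ.filter
      (fun τ : Fin M → Fin 3 => τ (a x) = 0 ∧ τ (b x) = 1 ∧ τ (c x) = 2)).card := by
    intro x hx
    have h1 := hab x hx
    have h2 := hac x hx
    have h3 := hbc x hx
    set G := Finset.univ.filter
      (fun τ : Fin M → Fin 3 => τ (a x) = 0 ∧ τ (b x) = 1 ∧ τ (c x) = 2) with hG
    let F : (Fin M → Fin 3) → (Fin 3 × Fin 3 × Fin 3) × (Fin M → Fin 3) := fun τ =>
      ((τ (a x), τ (b x), τ (c x)),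
        Function.update (Function.update (Function.update τ (a x) 0) (b x) 1) (c x) 2)
    have hF : Function.Injective F := by
      intro σ τ hστ
      simp only [F, Prod.mk.injEq] at hστ
      obtain ⟨⟨e1, e2, e3⟩, e4⟩ := hστ
      funext i
      by_cases i1 : i = c x
      · rw [i1, e3]
      by_cases i2 : i = b x
      · rw [i2, e2]
      by_cases i3 : i = a x
      · rw [i3, e1]
      have := congrFun e4 i
      simpa [Function.update_apply, i1, i2, i3] using this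
    have hmaps : ∀ τ ∈ (Finset.univ : Finset (Fin M → Fin 3)), F τ ∈
        (Finset.univ : Finset (Fin 3 × Fin 3 × Fin 3)) ×ˢ G := by
      intro τ _
      simp only [F, Finset.mem_product, Finset.mem_univ, true_and, hG, Finset.mem_filter]
      simp [Function.update_apply, h1, h2, h3, h1.symm, h2.symm, h3.symm]
    have := Finset.card_le_card_of_injOn F hmaps (hF.injOn)
    rw [Finset.card_product, Finset.card_univ, Finset.card_univ] at this
    simpa using this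
  have e1 : ∑ x ∈ A, (Finset.univ.filter
      (fun τ : Fin M → Fin 3 => τ (a x) = 0 ∧ τ (b x) = 1 ∧ τ (c x) = 2)).card =
      ∑ τ : Fin M → Fin 3, (A.filter (fun x => τ (a x) = 0 ∧ τ (b x) = 1 ∧ τ (c x) = 2)).card := by
    simp only [Finset.card_filter]
    exact Finset.sum_comm
  have e2 : A.card * Fintype.card (Fin M → Fin 3) ≤ 27 * ∑ x ∈ A, (Finset.univ.filter
      (fun τ : Fin M → Fin 3 => τ (a x) = 0 ∧ τ (b x) = 1 ∧ τ (c x) = 2)).card := by
    rw [Finset.mul_sum, ← smul_eq_mul, ← Finset.sum_const]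
    exact Finset.sum_le_sum good
  have e3 : 27 * ∑ τ : Fin M → Fin 3,
      (A.filter (fun x => τ (a x) = 0 ∧ τ (b x) = 1 ∧ τ (c x) = 2)).card <
      Fintype.card (Fin M → Fin 3) * A.card := by
    rw [Finset.mul_sum, ← smul_eq_mul, ← Finset.card_univ, ← Finset.sum_const]
    apply Finset.sum_lt_sum_of_nonempty
    · exact ⟨fun _ => 0, Finset.mem_univ _⟩
    · intro τ _
      exact hcon τ
  rw [e1] at e2
  rw [mul_comm A.card] at e2
  omega

open Filter in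
/-- Ramsey's theorem for triples, four points: a colouring of the increasing triples of naturals
with finitely many colours has a four-point set all of whose triples have the same colour. -/
theorem ramsey4 {K : Type*} [Finite K] (g : ℕ → ℕ → ℕ → K) :
    ∃ a b c d : ℕ, a < b ∧ b < c ∧ c < d ∧ g a b c = g a b d ∧ g a b c = g a c d ∧
      g a b c = g b c d := by
  classical
  have ex : ∀ f : ℕ → K, ∃ k : K, ∀ᶠ n in (hyperfilter ℕ : Filter ℕ), f n = k := by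
    intro f
    have h : (⋃ k ∈ (Set.univ : Set K), {n | f n = k}) ∈ hyperfilter ℕ := by
      have : (⋃ k ∈ (Set.univ : Set K), {n | f n = k}) = Set.univ := by
        ext n; simp
      rw [this]
      exact Filter.univ_mem
    rw [Ultrafilter.finite_biUnion_mem_iff Set.finite_univ] at h
    obtain ⟨k, _, hk⟩ := h
    exact ⟨k, hk⟩
  have big : ∀ m : ℕ, ∀ᶠ n in (hyperfilter ℕ : Filter ℕ), m < n := fun m =>
    (Filter.eventually_gt_atTop m).filter_mono Nat.hyperfilter_le_atTop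
  choose f2 hf2 using fun a b => ex (g a b)
  choose f1 hf1 using fun a => ex (f2 a)
  obtain ⟨k, hk⟩ := ex f1
  obtain ⟨a, ha⟩ := hk.exists
  obtain ⟨b, ⟨hb1, hb2⟩, hb3⟩ := ((hf1 a).and hk |>.and (big a)).exists
  obtain ⟨c, ⟨⟨hc1, hc2⟩, hc3⟩, hc4⟩ :=
    (((hf2 a b).and (hf1 a)).and (hf1 b) |>.and (big b)).exists
  obtain ⟨d, ⟨⟨hd1, hd2⟩, hd3⟩, hd4⟩ :=
    (((hf2 a b).and (hf2 a c)).and (hf2 b c) |>.and (big c)).exists
  refine ⟨a, b, c, d, hb3, hc4, hd4, ?_, ?_, ?_⟩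
  · rw [hc1, hd1]
  · rw [hc1, hd2, hb1, hc2]
  · rw [hc1, hd3, hb1, hc3, hb2, ha]

end Pool.Agent.R446.Pisier
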