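import Mathlib

open Finset

namespace Pool.Agent.R446

/-- The renewal sequence with window k: it starts with 1 and every further term is (1/k) times the sum of the
previous k terms. -/
noncomputable def ren (k : ℕ) : ℕ → ℝ
  | 0 => 1
  | n + 1 => (∑ i : Fin (n + 1), if (i : ℕ) < k then ren k (n - i) else 0) / k

theorem ren_zero (k : ℕ) : ren k 0 = 1 := by
  rw [ren]

theorem ren_succ (k n : ℕ) :
    ren k (n + 1) = (∑ i ∈ range (n + 1), if i < k then ren k (n - i) else 0) / k := by
  rw [ren, Fin.sum_univ_eq_sum_range (fun i => if i < k then ren k (n - i) else 0) (n + 1)]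

theorem ren_mem (k n : ℕ) : 0 ≤ ren k n ∧ ren k n ≤ 1 := by
  induction n using Nat.strong_induction_on with
  | _ n ih =>
    rcases n with _ | n
    · rw [ren_zero]; norm_num
    · rw [ren_succ]
      constructor
      · apply div_nonneg _ (Nat.cast_nonneg _)
        apply Finset.sum_nonneg
        intro i _
        split_ifs
        · exact (ih (n - i) (by omega)).1
        · exact le_refl _
      · rcases Nat.eq_zero_or_pos k with hk | hk
        · subst hk; simp
        · rw [div_le_one (by exact_mod_cast hk)]
          rw [← Finset.sum_filter]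
          calc ∑ i ∈ (range (n + 1)).filter (fun i => i < k), ren k (n - i)
              ≤ ∑ i ∈ (range (n + 1)).filter (fun i => i < k), 1 := by
                apply Finset.sum_le_sum
                intro i _
                exact (ih (n - i) (by omega)).2
            _ ≤ (k : ℝ) := by
                rw [Finset.sum_const, nsmul_eq_mul, mul_one]
                have : ((range (n + 1)).filter (fun i => i < k)).card ≤ (range k).card := by
                  apply Finset.card_le_card
                  intro i hi
                  rw [Finset.mem_filter] at hi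
                  exact Finset.mem_range.mpr hi.2
                rw [Finset.card_range] at this
                exact_mod_cast this

/-- the moving average property away from the left end -/
theorem ren_avg (k n : ℕ) (hk : 0 < k) (hn : k ≤ n + 1) :
    (k : ℝ) * ren k (n + 1) = ∑ i ∈ range k, ren k (n - i) := by
  rw [ren_succ, mul_div_cancel₀ _ (by exact_mod_cast hk.ne')]
  rw [← Finset.sum_filter]
  apply Finset.sum_congr _ (fun _ _ => rfl)
  ext i
  simp only [Finset.mem_filter, Finset.mem_range]
  omega

/-- the exact flatness identity -/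
theorem ren_flat (k w : ℕ) (hk : 0 < k) :
    ∑ i ∈ range (w + 1), ((k - i : ℕ) : ℝ) * ren k (w - i) = k := by
  induction w with
  | zero => simp [ren_zero]
  | succ w ih =>
    rw [Finset.sum_range_succ' _ (w + 1)]
    simp only [Nat.sub_zero, Nat.add_sub_add_right]
    rw [ren_succ, mul_div_cancel₀ _ (by exact_mod_cast hk.ne')]
    rw [← Finset.sum_add_distrib]
    rw [← ih]
    apply Finset.sum_congr rfl
    intro i _
    split_ifs with h
    · have h1 : ((k - i : ℕ) : ℝ) = ((k - (i + 1) : ℕ) : ℝ) + 1 := by
        have : k - i = (k - (i + 1)) + 1 := by omega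
        rw [this]; push_cast; ring
      rw [h1]; ring
    · have h1 : k - i = 0 := by omega
      have h2 : k - (i + 1) = 0 := by omega
      rw [h1, h2]; simp

/-- one half of the contraction step -/
theorem half_step (v : ℕ → ℝ) (T k : ℕ) (hk : 0 < k) (hTk : k ≤ T) (D m : ℝ) (hD : 0 ≤ D)
    (havg : ∀ j, T ≤ j → (k : ℝ) * v (j + 1) = ∑ i ∈ range k, v (j - i))
    (hm : ∀ i, T ≤ i + k → m ≤ v i)
    (hLip : ∀ j, T ≤ j → v j - D / k ≤ v (j + 1))
    (hT : m + D / 2 ≤ v T) : ∀ i, T ≤ i → m + D / 16 ≤ v i := by
  have hkr : (0 : ℝ) < k := by exact_mod_cast hk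
  have hlin : ∀ i : ℕ, v T - i * (D / k) ≤ v (T + i) := by
    intro i
    induction i with
    | zero => simp
    | succ i ih =>
      have := hLip (T + i) (by omega)
      have e : T + (i + 1) = T + i + 1 := by ring
      rw [e]
      push_cast
      nlinarith
  have hquart : ∀ i : ℕ, i ≤ k / 4 → m + D / 4 ≤ v (T + i) := by
    intro i hi
    have h1 := hlin i
    have h2 : (i : ℝ) ≤ k / 4 := by
      have : 4 * i ≤ k := by omega
      have : (4 : ℝ) * i ≤ k := by exact_mod_cast this
      linarith
    have h3 : (i : ℝ) * (D / k) ≤ D / 4 := by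
      calc (i : ℝ) * (D / k) ≤ (k / 4) * (D / k) := by
            apply mul_le_mul_of_nonneg_right h2
            positivity
        _ = D / 4 := by field_simp
    linarith
  intro i
  induction i using Nat.strong_induction_on with
  | _ i ih =>
    intro hi
    rcases Nat.lt_or_ge (k / 4) (i - T) with h | h
    · obtain ⟨j, rfl⟩ : ∃ j, i = j + 1 := ⟨i - 1, by omega⟩
      have hj : T ≤ j := by omega
      have hav := havg j hj
      have key : (k : ℝ) * (m + D / 16) ≤ ∑ i ∈ range k, v (j - i) := by
        rcases Nat.lt_or_ge (j + 1) (T + k) with h2 | h2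
        · -- partially overlapping window
          have hlow : ∑ i ∈ range k, (m + if (T ≤ j - i ∧ j - i ≤ T + k / 4) then D / 4 else 0)
              ≤ ∑ i ∈ range k, v (j - i) := by
            apply Finset.sum_le_sum
            intro i hi2
            rw [Finset.mem_range] at hi2
            split_ifs with h3
            · have := hquart (j - i - T) (by omega)
              rwa [show T + (j - i - T) = j - i by omega] at this
            · rw [add_zero]
              exact hm _ (by omega)
          refine le_trans ?_ hlow
          rw [Finset.sum_add_distrib, Finset.sum_const, Finset.card_range, nsmul_eq_mul,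
            ← Finset.sum_filter, Finset.sum_const, nsmul_eq_mul]
          have hcard : k / 4 + 1 ≤
              ((range k).filter (fun i => T ≤ j - i ∧ j - i ≤ T + k / 4)).card := by
            have hinj : (range (k / 4 + 1)).card ≤
                ((range k).filter (fun i => T ≤ j - i ∧ j - i ≤ T + k / 4)).card := by
              apply Finset.card_le_card_of_injOn (fun t => j - T - t)
              · intro t ht
                simp only [Finset.coe_range, Set.mem_Iio] at ht
                simp only [Finset.coe_filter, Finset.mem_range, Set.mem_ofPred_eq]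
                refine ⟨by omega, by omega, by omega⟩
              · intro t ht t' ht' he
                simp only [Finset.coe_range, Set.mem_Iio] at ht ht'
                simp only at he
                omega
            rwa [Finset.card_range] at hinj
          have hcard' : (k : ℝ) / 4 ≤
              (((range k).filter (fun i => T ≤ j - i ∧ j - i ≤ T + k / 4)).card : ℝ) := by
            have h5 : k ≤ 4 * ((range k).filter (fun i => T ≤ j - i ∧ j - i ≤ T + k / 4)).card := by
              omega
            have h6 : (k : ℝ) ≤ 4 *
              (((range k).filter (fun i => T ≤ j - i ∧ j - i ≤ T + k / 4)).card : ℝ) := by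
              exact_mod_cast h5
            linarith
          have := mul_le_mul_of_nonneg_right hcard' (by positivity : (0 : ℝ) ≤ D / 4)
          linarith
        · calc (k : ℝ) * (m + D / 16) = ∑ i ∈ range k, (m + D / 16) := by
                rw [Finset.sum_const, Finset.card_range, nsmul_eq_mul]
            _ ≤ ∑ i ∈ range k, v (j - i) := by
                apply Finset.sum_le_sum
                intro i hi2
                rw [Finset.mem_range] at hi2
                exact ih (j - i) (by omega) (by omega)
      rw [← hav] at key
      exact le_of_mul_le_mul_left key hkr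
    · have := hquart (i - T) h
      rw [show T + (i - T) = i by omega] at this
      linarith

/-- the contraction step for the renewal sequence -/
theorem ren_contract (k n : ℕ) (hk : 0 < k) (m M : ℝ) (h : ∀ i, n ≤ i → m ≤ ren k i ∧ ren k i ≤ M) :
    ∃ m' M' : ℝ, M' - m' ≤ (15 / 16) * (M - m) ∧
      ∀ i, n + k ≤ i → m' ≤ ren k i ∧ ren k i ≤ M' := by
  have hkr : (0 : ℝ) < k := by exact_mod_cast hk
  have hD : 0 ≤ M - m := by
    have := h n le_rfl
    linarith [this.1, this.2]
  have hdiff : ∀ j, n + k ≤ j → (k : ℝ) * (ren k (j + 1) - ren k j) = ren k j - ren k (j - k) := by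
    intro j hj
    have h1 := ren_avg k j hk (by omega)
    obtain ⟨j', rfl⟩ : ∃ j', j = j' + 1 := ⟨j - 1, by omega⟩
    have h2 := ren_avg k j' hk (by omega)
    obtain ⟨k', rfl⟩ : ∃ k', k = k' + 1 := ⟨k - 1, by omega⟩
    rw [mul_sub, h1, h2, Finset.sum_range_succ', Finset.sum_range_succ]
    simp only [Nat.add_sub_add_right, Nat.sub_zero]
    ring
  have hb : ∀ j, n + k ≤ j → |(k : ℝ) * (ren k (j + 1) - ren k j)| ≤ M - m := by
    intro j hj
    rw [hdiff j hj, abs_le]
    have h1 := h j (by omega)
    have h2 := h (j - k) (by omega)
    constructor <;> linarith [h1.1, h1.2, h2.1, h2.2]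
  rcases le_total (m + (M - m) / 2) (ren k (n + k)) with hT | hT
  · refine ⟨m + (M - m) / 16, M, by linarith, ?_⟩
    intro i hi
    refine ⟨?_, (h i (by omega)).2⟩
    apply half_step (ren k) (n + k) k hk (by omega) (M - m) m hD _ _ _ hT i hi
    · intro j hj
      exact ren_avg k j hk (by omega)
    · intro j hj
      exact (h j (by omega)).1
    · intro j hj
      have := (abs_le.mp (hb j hj)).1
      have h3 : -((M - m) / k) ≤ ren k (j + 1) - ren k j := by
        rw [← neg_div, div_le_iff₀ hkr]
        linarith
      linarith
  · refine ⟨m, M - (M - m) / 16, by linarith, ?_⟩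
    intro i hi
    refine ⟨(h i (by omega)).1, ?_⟩
    have := half_step (fun j => - ren k j) (n + k) k hk (by omega) (M - m) (-M) hD ?_ ?_ ?_ ?_ i hi
    · linarith
    · intro j hj
      have := ren_avg k j hk (by omega)
      simp only [Finset.sum_neg_distrib]
      linarith
    · intro j hj
      have := (h j (by omega)).2
      linarith
    · intro j hj
      have := (abs_le.mp (hb j hj)).2
      have h3 : ren k (j + 1) - ren k j ≤ (M - m) / k := by
        rw [le_div_iff₀ hkr]
        linarith
      linarith
    · linarith

theorem ren_window (k r : ℕ) (hk : 0 < k) :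
    ∃ m M : ℝ, M - m ≤ (15 / 16) ^ r ∧ ∀ i, r * k ≤ i → m ≤ ren k i ∧ ren k i ≤ M := by
  induction r with
  | zero => exact ⟨0, 1, by norm_num, fun i _ => ren_mem k i⟩
  | succ r ih =>
    obtain ⟨m, M, h1, h2⟩ := ih
    obtain ⟨m', M', h3, h4⟩ := ren_contract k (r * k) hk m M h2
    refine ⟨m', M', ?_, ?_⟩
    · rw [pow_succ]; linarith
    · intro i hi
      exact h4 i (by rw [Nat.add_mul, one_mul] at hi; exact hi)

theorem sum_lin (k : ℕ) : ∑ i ∈ range k, ((k - i : ℕ) : ℝ) = k * (k + 1) / 2 := by
  induction k with
  | zero => simp
  | succ k ih =>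
    rw [Finset.sum_range_succ']
    simp only [Nat.add_sub_add_right, Nat.sub_zero]
    rw [ih]; push_cast; ring

/-- the renewal sequence converges to 2/(k+1), with geometric rate -/
theorem ren_limit (k r : ℕ) (hk : 0 < k) :
    ∀ i, r * k ≤ i → |ren k i - 2 / (k + 1)| ≤ (15 / 16) ^ r := by
  obtain ⟨m, M, h1, h2⟩ := ren_window k r hk
  have hkr : (0 : ℝ) < k := by exact_mod_cast hk
  have hflat := ren_flat k (r * k + k) hk
  have hsplit : ∑ i ∈ range (r * k + k + 1), ((k - i : ℕ) : ℝ) * ren k (r * k + k - i)
      = ∑ i ∈ range k, ((k - i : ℕ) : ℝ) * ren k (r * k + k - i) := by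
    symm
    apply Finset.sum_subset
    · intro i hi
      rw [Finset.mem_range] at hi ⊢
      omega
    · intro i hi1 hi2
      rw [Finset.mem_range] at hi1 hi2
      have : k - i = 0 := by omega
      rw [this]; simp
  rw [hsplit] at hflat
  have hlow : (k * (k + 1) / 2 : ℝ) * m ≤ k := by
    refine le_trans ?_ (le_of_eq hflat)
    rw [← sum_lin, Finset.sum_mul]
    apply Finset.sum_le_sum
    intro i hi
    rw [Finset.mem_range] at hi
    apply mul_le_mul_of_nonneg_left _ (Nat.cast_nonneg _)
    exact (h2 _ (by omega)).1
  have hhigh : (k : ℝ) ≤ (k * (k + 1) / 2 : ℝ) * M := by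
    refine le_trans (le_of_eq hflat.symm) ?_
    rw [← sum_lin, Finset.sum_mul]
    apply Finset.sum_le_sum
    intro i hi
    rw [Finset.mem_range] at hi
    apply mul_le_mul_of_nonneg_left _ (Nat.cast_nonneg _)
    exact (h2 _ (by omega)).2
  have hm : m ≤ 2 / (k + 1) := by
    rw [le_div_iff₀ (by positivity)]
    have : (k : ℝ) * (m * (k + 1)) ≤ k * 2 := by linarith
    exact le_of_mul_le_mul_left this hkr
  have hM : 2 / ((k : ℝ) + 1) ≤ M := by
    rw [div_le_iff₀ (by positivity)]
    have : (k : ℝ) * 2 ≤ k * (M * (k + 1)) := by linarith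
    exact le_of_mul_le_mul_left this hkr
  intro i hi
  have h3 := h2 i hi
  rw [abs_le]
  constructor <;> linarith [h3.1, h3.2]

end Pool.Agent.R446
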