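import Pool.Agent.R446.Dual

open Finset Filter

namespace Pool.Agent.R446

theorem small_eps (C : ℝ) : ∃ M : ℕ, ∀ m : ℕ, M ≤ m → C * ((m : ℝ) ^ 7 * (15 / 16) ^ m) ≤ 1 := by
  have h1 : Tendsto (fun n : ℕ => (n : ℝ) ^ 7 * (15 / 16 : ℝ) ^ n) atTop (nhds 0) :=
    tendsto_pow_const_mul_const_pow_of_abs_lt_one 7 (by rw [abs_lt]; constructor <;> norm_num)
  have h2 := h1.const_mul C
  rw [mul_zero] at h2
  have h3 := h2.eventually_le_const (by norm_num : (0 : ℝ) < 1)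
  rw [eventually_atTop] at h3
  exact h3

theorem pow34 (y : ℝ) (hy : 18 ≤ y) : y ^ 3 * 18 ≤ y ^ 4 := by
  have e : y ^ 4 = y ^ 3 * y := by ring
  rw [e]
  apply mul_le_mul_of_nonneg_left hy
  have : 0 ≤ y := by linarith
  positivity

/-- the final quadratic inequality -/
theorem quad_final (a y s η G : ℝ) (ha0 : 0 < a) (ha : a ^ 2 = 8 / 9) (hG : 0 ≤ G)
    (hy : 18 + 72 * G ≤ y) (hη0 : 0 ≤ η) (hη : η * y ^ 4 ≤ 1)
    (hs : y ^ 3 * s ^ 2 ≤ (1 + η) * (y ^ 3 + a * s) * (y ^ 4 + a * y ^ 3 + G)) :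
    s ≤ y ^ 2 + a * y + 1 / 2 := by
  by_contra hcon
  push Not at hcon
  have ha1 : a < 1 := by
    by_contra h
    push Not at h
    have := pow_le_pow_left₀ (by norm_num : (0 : ℝ) ≤ 1) h 2
    rw [ha] at this
    norm_num at this
  have hy1 : 18 ≤ y := by linarith
  have hy0 : 0 < y := by linarith
  set t := s - (y ^ 2 + a * y + 1 / 2) with ht
  have htpos : 0 < t := by rw [ht]; linarith
  have hs' : s = y ^ 2 + a * y + 1 / 2 + t := by rw [ht]; ring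
  set Q := y ^ 4 + a * y ^ 3 + G with hQ
  have hy2 : 0 < y ^ 2 := by positivity
  have hy3 : 0 < y ^ 3 := by positivity
  have hy4 : 0 < y ^ 4 := by positivity
  have hy12 : y * 18 ≤ y ^ 2 := by
    have := mul_le_mul_of_nonneg_left hy1 hy0.le
    linarith [sq y]
  have hy23 : y ^ 2 * 18 ≤ y ^ 3 := by
    have := mul_le_mul_of_nonneg_left hy1 hy2.le
    have e : y ^ 2 * y = y ^ 3 := by ring
    linarith
  have hy34 : y ^ 3 * 18 ≤ y ^ 4 := pow34 y hy1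
  have hy45 : y ^ 4 * 18 ≤ y ^ 5 := by
    have := mul_le_mul_of_nonneg_left hy1 hy4.le
    have e : y ^ 4 * y = y ^ 5 := by ring
    linarith
  have hay3 : a * y ^ 3 ≤ y ^ 3 := by
    have := mul_le_mul_of_nonneg_right ha1.le hy3.le
    linarith
  have hay3' : 0 < a * y ^ 3 := mul_pos ha0 hy3
  have hQpos : 0 < Q := by rw [hQ]; linarith
  have hQle : Q ≤ (2 + G) * y ^ 4 := by
    have h1 : G * 1 ≤ G * y ^ 4 := mul_le_mul_of_nonneg_left (by linarith) hG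
    rw [hQ]
    linarith
  have hηQ : η * Q ≤ 2 + G := by
    calc η * Q ≤ η * ((2 + G) * y ^ 4) := mul_le_mul_of_nonneg_left hQle hη0
      _ = (2 + G) * (η * y ^ 4) := by ring
      _ ≤ (2 + G) * 1 := mul_le_mul_of_nonneg_left hη (by linarith)
      _ = 2 + G := by ring
  -- main polynomial inequality at s₁
  set s₁ := y ^ 2 + a * y + 1 / 2 with hs1
  have hs10 : 0 ≤ s₁ := by rw [hs1]; positivity
  have hay1 : a * y ≤ y := by
    have := mul_le_mul_of_nonneg_right ha1.le hy0.le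
    linarith
  have hs1le : s₁ ≤ 3 * y ^ 2 := by rw [hs1]; linarith
  have hs1y : y ^ 3 + a * s₁ ≤ 4 * y ^ 3 := by
    have h1 : a * s₁ ≤ 1 * s₁ := mul_le_mul_of_nonneg_right ha1.le hs10
    linarith
  have hs1y0 : 0 ≤ y ^ 3 + a * s₁ := by positivity
  have hbase : (1 + η) * (y ^ 3 + a * s₁) * Q < y ^ 3 * s₁ ^ 2 := by
    have e1 : y ^ 3 * s₁ ^ 2 - (y ^ 3 + a * s₁) * Q
        = (1 - a ^ 2) * y ^ 5 + (a / 2 - a * a ^ 2) * y ^ 4 + (1 / 4 - a ^ 2 / 2) * y ^ 3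
          - G * (y ^ 3 + a * s₁) := by
      rw [hs1, hQ]; ring
    rw [ha] at e1
    have h5 : η * ((y ^ 3 + a * s₁) * Q) ≤ (2 + G) * (4 * y ^ 3) := by
      calc η * ((y ^ 3 + a * s₁) * Q) = (η * Q) * (y ^ 3 + a * s₁) := by ring
        _ ≤ (2 + G) * (4 * y ^ 3) :=
            mul_le_mul hηQ hs1y hs1y0 (by linarith)
    have h6 : G * (y ^ 3 + a * s₁) ≤ G * (4 * y ^ 3) := mul_le_mul_of_nonneg_left hs1y hG
    have h7 : 0 < (1 - 8 / 9) * y ^ 5 + (a / 2 - a * (8 / 9)) * y ^ 4 + (1 / 4 - 8 / 9 / 2) * y ^ 3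
        - G * (4 * y ^ 3) - (2 + G) * (4 * y ^ 3) := by
      have e2 : (1 - 8 / 9) * y ^ 5 + (a / 2 - a * (8 / 9)) * y ^ 4 + (1 / 4 - 8 / 9 / 2) * y ^ 3
        - G * (4 * y ^ 3) - (2 + G) * (4 * y ^ 3)
        = y ^ 3 * (y ^ 2 / 9 - 7 / 18 * (a * y) - 7 / 36 - 8 * G - 8) := by ring
      rw [e2]
      apply mul_pos hy3
      have h8 : y * (18 + 72 * G) ≤ y ^ 2 := by
        have := mul_le_mul_of_nonneg_left hy hy0.le
        linarith [sq y]
      have h9 : y * G ≥ 18 * G := mul_le_mul_of_nonneg_right hy1 hG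
      have e3 : y * (18 + 72 * G) = 18 * y + 72 * (y * G) := by ring
      rw [e3] at h8
      linarith
    have e3 : (1 + η) * (y ^ 3 + a * s₁) * Q
        = (y ^ 3 + a * s₁) * Q + η * ((y ^ 3 + a * s₁) * Q) := by ring
    rw [e3]
    linarith
  -- monotonicity
  have hmono : 0 ≤ y ^ 3 * (2 * s₁) - (1 + η) * a * Q := by
    have h1 : (1 + η) * a * Q ≤ Q + (2 + G) := by
      calc (1 + η) * a * Q = a * (Q + η * Q) := by ring
        _ ≤ 1 * (Q + (2 + G)) := by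
            apply mul_le_mul ha1.le (by linarith) (by positivity) (by norm_num)
        _ = _ := by ring
    have h2 : Q + (2 + G) ≤ y ^ 3 * (2 * s₁) := by
      have e : y ^ 3 * (2 * s₁) = 2 * y ^ 5 + 2 * (a * y ^ 4) + y ^ 3 := by rw [hs1]; ring
      have h6 : 0 ≤ a * y ^ 4 := by positivity
      rw [e, hQ]
      linarith
    linarith
  rw [hs'] at hs
  have hexp : y ^ 3 * (s₁ + t) ^ 2 - (1 + η) * (y ^ 3 + a * (s₁ + t)) * Q
      = (y ^ 3 * s₁ ^ 2 - (1 + η) * (y ^ 3 + a * s₁) * Q)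
        + t * (y ^ 3 * (2 * s₁) - (1 + η) * a * Q) + y ^ 3 * t ^ 2 := by ring
  have h8 : 0 ≤ t * (y ^ 3 * (2 * s₁) - (1 + η) * a * Q) := mul_nonneg htpos.le hmono
  have h9 : 0 ≤ y ^ 3 * t ^ 2 := by positivity
  linarith

theorem poly_one (y g : ℝ) (hy : 18 ≤ y) (hg : 200 * g ≤ y) :
    (y / 16 + 1) * (3 / 2 * y ^ 3 + g) + 2 * g ≤ y ^ 4 / 2 := by
  have hy0 : 0 ≤ y := by linarith
  have h4 := pow34 y hy
  have h6 : y ^ 2 * 18 ≤ y ^ 3 := by
    have e : y ^ 3 = y ^ 2 * y := by ring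
    rw [e]
    exact mul_le_mul_of_nonneg_left hy (by positivity)
  have h66 : y * 18 ≤ y ^ 2 := by
    have e : y ^ 2 = y * y := by ring
    rw [e]
    exact mul_le_mul_of_nonneg_left hy hy0
  have h7 : y * g ≤ y * (y / 200) := mul_le_mul_of_nonneg_left (by linarith) hy0
  have e : (y / 16 + 1) * (3 / 2 * y ^ 3 + g) + 2 * g
      = 3 / 32 * y ^ 4 + 3 / 2 * y ^ 3 + y * g / 16 + 3 * g := by ring
  rw [e]
  have h8 : y * (y / 200) = y ^ 2 / 200 := by ring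
  rw [h8] at h7
  linarith

theorem eps_eta (ε η : ℝ) (h0 : 0 ≤ ε) (h1 : 10 * ε ≤ η) (h2 : η ≤ 1 / 18) :
    1 + ε ≤ (1 + η) * (1 - ε) ^ 2 := by
  have h3 : 0 ≤ ε ^ 2 * (1 + η) := by
    have : 0 ≤ η := by linarith
    positivity
  have h4 : η * ε ≤ 1 / 18 * ε := mul_le_mul_of_nonneg_right h2 h0
  have e : (1 + η) * (1 - ε) ^ 2 = 1 + η - 2 * ε - 2 * (η * ε) + ε ^ 2 * (1 + η) := by ring
  rw [e]
  linarith

/-- every set in [1, n] in which every positive difference occurs at most g times has at most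
sqrt(gn) + (2 sqrt 2 / 3)(gn)^(1/4) + 1/2 elements, for n large -/
theorem thin_bound (g : ℕ) (hg0 : 0 < g) : ∃ n₀ : ℕ, ∀ n : ℕ, n₀ ≤ n → ∀ A : Finset ℕ,
    A ⊆ Finset.Icc 1 n →
    (∀ d, 0 < d → ((A ×ˢ A).filter (fun p => p.1 + d = p.2)).card ≤ g) →
    (A.card : ℝ) ≤ Real.sqrt (g * n) + 2 * Real.sqrt 2 / 3 * ((g : ℝ) * n) ^ ((1 : ℝ) / 4)
      + 1 / 2 := by
  obtain ⟨M, hM⟩ := small_eps (20 * 16 ^ 7 * (16 / 15))
  set B : ℝ := 18 + 200 * g + 16 * M with hB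
  refine ⟨⌈B ^ 4⌉₊, ?_⟩
  intro n hn A hA hd
  have hgr : (1 : ℝ) ≤ g := by exact_mod_cast hg0
  have hgr0 : (0 : ℝ) < g := by linarith
  have hMr : (0 : ℝ) ≤ M := Nat.cast_nonneg _
  have hB0 : 0 < B := by positivity
  set y : ℝ := ((g : ℝ) * n) ^ ((1 : ℝ) / 4) with hy
  have hgn0 : (0 : ℝ) ≤ (g : ℝ) * n := by positivity
  have hy4 : y ^ 4 = (g : ℝ) * n := by
    rw [hy, ← Real.rpow_natCast, ← Real.rpow_mul hgn0]
    norm_num
  have hy0 : 0 ≤ y := by positivity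
  have hnB : B ^ 4 ≤ n := le_trans (Nat.le_ceil _) (by exact_mod_cast hn)
  have hyB : B ≤ y := by
    by_contra h
    push Not at h
    have h1 : y ^ 4 < B ^ 4 := pow_lt_pow_left₀ h hy0 (by norm_num)
    rw [hy4] at h1
    have h2 : (n : ℝ) ≤ g * n := le_mul_of_one_le_left (Nat.cast_nonneg _) hgr
    linarith
  have hsqrt : Real.sqrt (g * n) = y ^ 2 := by
    rw [← hy4, show y ^ 4 = (y ^ 2) ^ 2 by ring, Real.sqrt_sq (by positivity)]
  rw [hsqrt]
  have hy18 : 18 + 200 * (g : ℝ) ≤ y := by linarith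
  have hypos : 0 < y := by linarith
  have hyM : 16 * (M : ℝ) ≤ y := by linarith
  set a : ℝ := 2 * Real.sqrt 2 / 3 with ha
  have hs2 : Real.sqrt 2 ^ 2 = 2 := Real.sq_sqrt (by norm_num)
  have hs20 : 0 < Real.sqrt 2 := by positivity
  have hs2le : Real.sqrt 2 ≤ 3 / 2 := Real.sqrt_le_iff.mpr ⟨by norm_num, by norm_num⟩
  have ha2 : a ^ 2 = 8 / 9 := by rw [ha, div_pow, mul_pow, hs2]; norm_num
  have ha0 : 0 < a := by positivity
  -- parameters
  set k : ℕ := ⌈Real.sqrt 2 * y ^ 3 / g⌉₊ with hk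
  have hk_low : Real.sqrt 2 * y ^ 3 / g ≤ k := Nat.le_ceil _
  have hk_high : (k : ℝ) < Real.sqrt 2 * y ^ 3 / g + 1 := Nat.ceil_lt_add_one (by positivity)
  have hkpos : 0 < k := by
    rw [hk, Nat.ceil_pos]
    positivity
  have hkr : (0 : ℝ) < k := by exact_mod_cast hkpos
  have hkg_low : Real.sqrt 2 * y ^ 3 ≤ k * g := by
    rwa [div_le_iff₀ hgr0] at hk_low
  have hkg_high : k * g ≤ Real.sqrt 2 * y ^ 3 + g := by
    have : (k : ℝ) * g ≤ (Real.sqrt 2 * y ^ 3 / g + 1) * g :=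
      mul_le_mul_of_nonneg_right hk_high.le hgr0.le
    have e : (Real.sqrt 2 * y ^ 3 / g + 1) * g = Real.sqrt 2 * y ^ 3 + g := by
      field_simp
    linarith
  have hyge : (18 : ℝ) ≤ y := by linarith
  have hy3 : 18 ≤ y ^ 3 := le_trans (by norm_num) (pow_le_pow_left₀ (by norm_num) hyge 3)
  have hk_high2 : (k : ℝ) + 1 ≤ 2 * y ^ 3 := by
    have h1 : Real.sqrt 2 * y ^ 3 / g ≤ Real.sqrt 2 * y ^ 3 := by
      apply div_le_self (by positivity) hgr
    have h2 : Real.sqrt 2 * y ^ 3 ≤ 3 / 2 * y ^ 3 :=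
      mul_le_mul_of_nonneg_right hs2le (by positivity)
    linarith
  set r : ℕ := ⌊y / 16⌋₊ with hr
  have hr_low : (r : ℝ) ≤ y / 16 := Nat.floor_le (by positivity)
  have hr_high : y / 16 < r + 1 := Nat.lt_floor_add_one _
  have hrM : M ≤ r + 1 := by
    have : (M : ℝ) < r + 1 := by linarith
    have : (M : ℝ) < ((r + 1 : ℕ) : ℝ) := by push_cast; linarith
    have := Nat.cast_lt.mp this
    omega
  have hsm := hM (r + 1) hrM
  set ε : ℝ := (k + 1) * (15 / 16) ^ r with hε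
  have hε0 : 0 ≤ ε := by positivity
  have hεy : 10 * y ^ 4 * ε ≤ 1 := by
    have h1 : (y : ℝ) ^ 7 ≤ (16 * ((r + 1 : ℕ) : ℝ)) ^ 7 := by
      apply pow_le_pow_left₀ hy0
      push_cast; linarith
    calc 10 * y ^ 4 * ε = 10 * y ^ 4 * ((k : ℝ) + 1) * (15 / 16) ^ r := by rw [hε]; ring
      _ ≤ 10 * y ^ 4 * (2 * y ^ 3) * (15 / 16) ^ r := by
          apply mul_le_mul_of_nonneg_right _ (by positivity)
          apply mul_le_mul_of_nonneg_left hk_high2 (by positivity)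
      _ = 20 * y ^ 7 * (15 / 16) ^ r := by ring
      _ ≤ 20 * (16 * ((r + 1 : ℕ) : ℝ)) ^ 7 * (15 / 16) ^ r := by
          apply mul_le_mul_of_nonneg_right _ (by positivity)
          apply mul_le_mul_of_nonneg_left h1 (by positivity)
      _ = 20 * 16 ^ 7 * (16 / 15) * ((((r + 1 : ℕ) : ℝ)) ^ 7 * (15 / 16) ^ (r + 1)) := by
          rw [pow_succ (15 / 16 : ℝ) r]; ring
      _ ≤ 1 := hsm
  have hy4big : 18 ≤ y ^ 4 := le_trans (by norm_num) (pow_le_pow_left₀ (by norm_num) hyge 4)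
  have hε1 : ε ≤ 1 / 100 := by
    have h1 : 10 * 18 * ε ≤ 10 * y ^ 4 * ε :=
      mul_le_mul_of_nonneg_right (by linarith) hε0
    linarith
  have hrk : (r + 1) * k + 2 ≤ (n + 1) / 2 := by
    rw [Nat.le_div_iff_mul_le (by norm_num)]
    have hreal : (((r : ℝ) + 1) * k + 2) * 2 ≤ n + 1 := by
      have h1 : ((r : ℝ) + 1) * k * g ≤ (y / 16 + 1) * (Real.sqrt 2 * y ^ 3 + g) := by
        rw [mul_assoc]
        apply mul_le_mul (by linarith) hkg_high (by positivity) (by positivity)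
      have h2 : (y / 16 + 1) * (Real.sqrt 2 * y ^ 3 + g) ≤ (y / 16 + 1) * (3 / 2 * y ^ 3 + g) := by
        apply mul_le_mul_of_nonneg_left _ (by positivity)
        have : Real.sqrt 2 * y ^ 3 ≤ 3 / 2 * y ^ 3 :=
          mul_le_mul_of_nonneg_right hs2le (by positivity)
        linarith
      have h3 : (y / 16 + 1) * (3 / 2 * y ^ 3 + g) + 2 * g ≤ y ^ 4 / 2 := by
        exact poly_one y g hyge (by linarith)
      have h8 : (((r : ℝ) + 1) * k + 2) * 2 * g ≤ (n + 1) * g := by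
        have e1 : (((r : ℝ) + 1) * k + 2) * 2 * g = 2 * (((r : ℝ) + 1) * k * g) + 4 * g := by ring
        have e2 : ((n : ℝ) + 1) * g = g * n + g := by ring
        rw [e1, e2, ← hy4]
        linarith
      exact le_of_mul_le_mul_right h8 hgr0
    have : ((((r + 1) * k + 2) * 2 : ℕ) : ℝ) ≤ ((n + 1 : ℕ) : ℝ) := by
      push_cast; linarith
    exact_mod_cast this
  have hAN : ∀ x ∈ A, x < n + 1 := by
    intro x hx
    have := Finset.mem_Icc.mp (hA hx)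
    omega
  have hmain := main_ineq A k g (n + 1) r hkpos hrk hAN hd ε hε (by linarith)
  set s : ℝ := (A.card : ℝ) with hs
  have hs0 : 0 ≤ s := Nat.cast_nonneg _
  -- simplify
  have hcor0 : cor k 0 ≤ 4 / (3 * k) * (k * (k + 1) / 2) ^ 2 := by
    rw [cor_zero]
    have e : 4 / (3 * (k : ℝ)) * (k * (k + 1) / 2) ^ 2 = k * (k + 1) * (2 * k + 2) / 6 := by
      field_simp; ring
    rw [e]
    have : (0 : ℝ) ≤ k * (k + 1) := by positivity
    apply div_le_div_of_nonneg_right _ (by norm_num)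
    apply mul_le_mul_of_nonneg_left (by linarith) this
  have hcor1 : 0 ≤ cor k 0 := cor_nonneg _ _
  have hKpos : (0 : ℝ) < (k * (k + 1) / 2) ^ 2 := by positivity
  have h1 : s ^ 2 * (1 - ε) ^ 2 ≤ (s * (4 / (3 * k)) + g) * (1 + ε) * (n + 1 + 2 * k / 3) := by
    have hk1 : (1 : ℝ) ≤ k := by exact_mod_cast hkpos
    have hεk : ε * k ≤ 2 := by
      have : ε * k ≤ ε * (10 * y ^ 4) := by
        apply mul_le_mul_of_nonneg_left _ hε0
        have h30 : y ^ 3 * 18 ≤ y ^ 4 := pow34 y hyge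
        linarith
      linarith
    have h2 : (s * cor k 0 + g * ((k * (k + 1) / 2) ^ 2 - cor k 0))
        ≤ (s * (4 / (3 * k)) + g) * (k * (k + 1) / 2) ^ 2 := by
      have h21 := mul_le_mul_of_nonneg_left hcor0 hs0
      have h22 := mul_nonneg hgr0.le hcor1
      have h23 : (s * (4 / (3 * k)) + g) * (k * (k + 1) / 2) ^ 2
          = s * (4 / (3 * k) * (k * (k + 1) / 2) ^ 2) + g * (k * (k + 1) / 2) ^ 2 := by ring
      rw [h23, mul_sub]
      linarith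
    have h3 : (((n + 1 : ℕ) : ℝ) + (2 + ε) * (k - 1) / 3) ≤ n + 1 + 2 * k / 3 := by
      push_cast
      have h31 : (2 + ε) * (k - 1) = 2 * k - 2 + ε * k - ε := by ring
      rw [h31]
      linarith
    have h4 : 0 ≤ (1 + ε) * (((n + 1 : ℕ) : ℝ) + (2 + ε) * (k - 1) / 3) := by
      have : (0 : ℝ) ≤ k - 1 := by linarith
      positivity
    have h5 : 0 ≤ (s * (4 / (3 * k)) + g) * (k * (k + 1) / 2) ^ 2 * (1 + ε) := by positivity
    have h6 : (k * (k + 1) / 2 : ℝ) ^ 2 * (s ^ 2 * (1 - ε) ^ 2)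
        ≤ (k * (k + 1) / 2 : ℝ) ^ 2 * ((s * (4 / (3 * k)) + g) * (1 + ε) * (n + 1 + 2 * k / 3)) := by
      calc (k * (k + 1) / 2 : ℝ) ^ 2 * (s ^ 2 * (1 - ε) ^ 2)
          = s ^ 2 * (k * (k + 1) / 2) ^ 2 * (1 - ε) ^ 2 := by ring
        _ ≤ _ := hmain
        _ = (s * cor k 0 + g * ((k * (k + 1) / 2) ^ 2 - cor k 0)) *
            ((1 + ε) * (((n + 1 : ℕ) : ℝ) + (2 + ε) * (k - 1) / 3)) := by ring
        _ ≤ ((s * (4 / (3 * k)) + g) * (k * (k + 1) / 2) ^ 2) *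
            ((1 + ε) * (((n + 1 : ℕ) : ℝ) + (2 + ε) * (k - 1) / 3)) :=
            mul_le_mul_of_nonneg_right h2 h4
        _ = ((s * (4 / (3 * k)) + g) * (k * (k + 1) / 2) ^ 2 * (1 + ε)) *
            (((n + 1 : ℕ) : ℝ) + (2 + ε) * (k - 1) / 3) := by ring
        _ ≤ ((s * (4 / (3 * k)) + g) * (k * (k + 1) / 2) ^ 2 * (1 + ε)) *
            (n + 1 + 2 * k / 3) := mul_le_mul_of_nonneg_left h3 h5
        _ = _ := by ring
    exact le_of_mul_le_mul_left h6 hKpos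
  -- pass to y
  have h7 : (s * (4 / (3 * k)) + g) * (n + 1 + 2 * k / 3)
      = (s * (4 / (3 * (k * g))) + 1) * (g * n + g + 2 * (k * g) / 3) := by
    field_simp
  have h8 : s * (4 / (3 * (k * g))) + 1 ≤ (y ^ 3 + a * s) / y ^ 3 := by
    have h9 : 4 / (3 * ((k : ℝ) * g)) ≤ a / y ^ 3 := by
      rw [div_le_div_iff₀ (by positivity) (by positivity)]
      have h10 : a * (3 * (Real.sqrt 2 * y ^ 3)) ≤ a * (3 * (k * g)) := by
        apply mul_le_mul_of_nonneg_left _ ha0.le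
        linarith
      have h11 : a * (3 * (Real.sqrt 2 * y ^ 3)) = 4 * y ^ 3 := by
        rw [ha]
        calc 2 * Real.sqrt 2 / 3 * (3 * (Real.sqrt 2 * y ^ 3)) = 2 * Real.sqrt 2 ^ 2 * y ^ 3 := by
              ring
          _ = 4 * y ^ 3 := by rw [hs2]; ring
      linarith
    have h12 : (y ^ 3 + a * s) / y ^ 3 = s * (a / y ^ 3) + 1 := by
      field_simp
      ring
    rw [h12]
    have := mul_le_mul_of_nonneg_left h9 hs0
    linarith
  have h13 : (g : ℝ) * n + g + 2 * (k * g) / 3 ≤ y ^ 4 + a * y ^ 3 + 5 / 3 * g := by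
    rw [hy4]
    have e1 : a * y ^ 3 = 2 * (Real.sqrt 2 * y ^ 3) / 3 := by rw [ha]; ring
    rw [e1]
    linarith
  have h14 : s ^ 2 * (1 - ε) ^ 2 ≤ (1 + ε) * ((y ^ 3 + a * s) / y ^ 3 *
      (y ^ 4 + a * y ^ 3 + 5 / 3 * g)) := by
    calc s ^ 2 * (1 - ε) ^ 2 ≤ (s * (4 / (3 * k)) + g) * (1 + ε) * (n + 1 + 2 * k / 3) := h1
      _ = (1 + ε) * ((s * (4 / (3 * k)) + g) * (n + 1 + 2 * k / 3)) := by ring
      _ = (1 + ε) * ((s * (4 / (3 * (k * g))) + 1) * (g * n + g + 2 * (k * g) / 3)) := by rw [h7]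
      _ ≤ _ := by
          apply mul_le_mul_of_nonneg_left _ (by linarith)
          apply mul_le_mul h8 h13 (by positivity) (by positivity)
  have hy4pos : 0 < y ^ 4 := by positivity
  set η : ℝ := 1 / y ^ 4 with hη
  have hη0 : 0 ≤ η := by positivity
  have hη1 : η * y ^ 4 = 1 := by rw [hη]; field_simp
  have hεη : 10 * ε ≤ η := by
    rw [hη, le_div_iff₀ hy4pos]; linarith
  have hη2 : η ≤ 1 / 18 := by
    rw [hη]; apply one_div_le_one_div_of_le (by norm_num) hy4big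
  have h15 : 1 + ε ≤ (1 + η) * (1 - ε) ^ 2 := eps_eta ε η hε0 hεη hη2
  have hfin : s ^ 2 ≤ (1 + η) * ((y ^ 3 + a * s) / y ^ 3 *
      (y ^ 4 + a * y ^ 3 + 5 / 3 * g)) := by
    have h16 : 0 < (1 - ε) ^ 2 := by
      have : 0 < 1 - ε := by linarith
      positivity
    have h17 : 0 ≤ (y ^ 3 + a * s) / y ^ 3 * (y ^ 4 + a * y ^ 3 + 5 / 3 * g) := by positivity
    have h18 : s ^ 2 * (1 - ε) ^ 2 ≤ ((1 + η) * ((y ^ 3 + a * s) / y ^ 3 *
      (y ^ 4 + a * y ^ 3 + 5 / 3 * g))) * (1 - ε) ^ 2 := by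
      calc _ ≤ _ := h14
        _ ≤ ((1 + η) * (1 - ε) ^ 2) * ((y ^ 3 + a * s) / y ^ 3 *
          (y ^ 4 + a * y ^ 3 + 5 / 3 * g)) := mul_le_mul_of_nonneg_right h15 h17
        _ = _ := by ring
    exact le_of_mul_le_mul_right h18 h16
  have hfin2 : y ^ 3 * s ^ 2 ≤ (1 + η) * (y ^ 3 + a * s) * (y ^ 4 + a * y ^ 3 + 5 / 3 * g) := by
    have hy3pos : 0 < y ^ 3 := by positivity
    calc y ^ 3 * s ^ 2 ≤ y ^ 3 * ((1 + η) * ((y ^ 3 + a * s) / y ^ 3 *
          (y ^ 4 + a * y ^ 3 + 5 / 3 * g))) := mul_le_mul_of_nonneg_left hfin hy3pos.le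
      _ = _ := by field_simp
  exact quad_final a y s η (5 / 3 * g) ha0 ha2 (by positivity) (by linarith) hη0 hη1.le hfin2

end Pool.Agent.R446
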